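import Mathlib
import Pool.Agent.Helper376.LC.Defs

set_option autoImplicit false

/-! # Conformal dimension of the boundary of a hyperbolic group: definitions

Geodesic spaces, Gromov products, Gromov hyperbolicity and the Gromov boundary are those of
`Pool.Agent.Helper376.LC.Defs`. -/

namespace Pool.Agent.Y454.CD

open Filter MeasureTheory Pool.Agent.Helper376.LC
open scoped ENNReal NNReal Topology

/-- The Cayley graph of `G` with respect to `S`: `x` and `y` are adjacent if they are distinct and
`x⁻¹ y ∈ S` or `y⁻¹ x ∈ S`. -/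
def cayley {G : Type} [Group G] (S : Set G) : SimpleGraph G :=
  SimpleGraph.fromRel (fun x y => x⁻¹ * y ∈ S)

/-- The Gromov product of `x` and `y` based at `o`, for the distance of the Cayley graph. -/
noncomputable def wprod {G : Type} [Group G] (S : Set G) (o x y : G) : ℝ :=
  (((cayley S).dist x o : ℝ) + ((cayley S).dist y o : ℝ) - ((cayley S).dist x y : ℝ)) / 2

/-- `G` is a hyperbolic group: it has a finite generating set whose Cayley graph is Gromov
hyperbolic (four point condition). -/
def HyperbolicGroup (G : Type) [Group G] : Prop :=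
  ∃ S : Set G, S.Finite ∧ Subgroup.closure S = ⊤ ∧
    ∃ δ : ℝ, ∀ o x y z : G, min (wprod S o x z) (wprod S o z y) - δ ≤ wprod S o x y

/-- A geometric action of the group `G` on the nonempty proper geodesic metric space `X`: isometric,
properly discontinuous and cocompact. -/
structure GeometricAction (G X : Type) [Group G] [MetricSpace X] [MulAction G X] : Prop where
  nonempty : Nonempty X
  proper : ProperSpace X
  geodesic : GeodesicSpace X
  isometric : ∀ (g : G) (x y : X), dist (g • x) (g • y) = dist x y
  discontinuous : ∀ K : Set X, IsCompact K → {g : G | ((fun x => g • x) '' K ∩ K).Nonempty}.Finite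
  cocompact : ∃ K : Set X, IsCompact K ∧ ∀ x : X, ∃ g : G, g • x ∈ K

/-- The Gromov product `(ξ|η)_o = sup liminf_{i,j} (x_i|y_j)_o` of two boundary points, the
supremum being over all sequences `x_i → ξ` and `y_j → η`. -/
noncomputable def bprod {X : Type} [MetricSpace X] (o : X) (ξ η : Boundary X) : ℝ≥0∞ :=
  ⨆ (u : GromovSeq X) (v : GromovSeq X) (_ : u.lim = ξ) (_ : v.lim = η),
    liminf (fun p : ℕ × ℕ => ENNReal.ofReal (gprod o (u.seq p.1) (v.seq p.2))) atTop

/-- The bijection `e` identifies the metric space `Z` with the Gromov boundary of `X` equipped with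
a visual metric with base point `o` and parameter `ε > 0`: the distance of distinct `z` and `w` is,
up to a multiplicative constant, `exp (-ε (e z|e w)_o)`. -/
def IsVisualWith {X Z : Type} [MetricSpace X] [MetricSpace Z] (o : X) (ε : ℝ)
    (e : Z ≃ Boundary X) : Prop :=
  0 < ε ∧ ∃ C : ℝ, 1 ≤ C ∧ ∀ z w : Z, z ≠ w →
    C⁻¹ * Real.exp (-ε * (bprod o (e z) (e w)).toReal) ≤ dist z w ∧
    dist z w ≤ C * Real.exp (-ε * (bprod o (e z) (e w)).toReal)

/-- The bijection `e` identifies the metric space `Z` with the Gromov boundary of `X` equipped with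
some visual metric. -/
def IsVisual {X Z : Type} [MetricSpace X] [MetricSpace Z] (e : Z ≃ Boundary X) : Prop :=
  ∃ (o : X) (ε : ℝ), IsVisualWith o ε e

/-- `Y` and `Z` are quasisymmetrically equivalent. -/
def QuasisymmetricEquiv (Y Z : Type) [MetricSpace Y] [MetricSpace Z] : Prop :=
  ∃ (f : Y ≃ₜ Z) (η : ℝ≥0 ≃ₜ ℝ≥0), ∀ (x a b : Y) (t : ℝ≥0),
    nndist x a ≤ t * nndist x b → nndist (f x) (f a) ≤ η t * nndist (f x) (f b)

/-- `Y` is a compact Ahlfors regular metric space: for some `Q ≥ 0` it carries a Borel measure for
which, up to a multiplicative constant, the balls of radius `r ≤ diam Y` have measure `r ^ Q`. -/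
def AhlforsRegular (Y : Type) [MetricSpace Y] : Prop :=
  CompactSpace Y ∧ ∃ (Q C : ℝ) (μ : @Measure Y (borel Y)), 0 ≤ Q ∧ 1 ≤ C ∧
    ∀ (y : Y) (r : ℝ), 0 < r → r ≤ Metric.diam (Set.univ : Set Y) →
      ENNReal.ofReal (C⁻¹ * r ^ Q) ≤ μ (Metric.ball y r) ∧
      μ (Metric.ball y r) ≤ ENNReal.ofReal (C * r ^ Q)

/-- `Z` is (isometric to) the boundary of `X` with a visual metric, for some geometric action of
`G` on a proper geodesic space `X`. -/
def VisualBoundary (G : Type) [Group G] (Z : Type) [MetricSpace Z] : Prop :=
  ∃ (X : Type) (_ : MetricSpace X) (_ : MulAction G X) (e : Z ≃ Boundary X),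
    GeometricAction G X ∧ IsVisual e

/-- The Ahlfors regular conformal dimension of the boundary of `G`: the infimum of the Hausdorff
dimensions of the Ahlfors regular metric spaces which are quasisymmetrically equivalent to the
boundary of `G` with a visual metric. -/
noncomputable def ACD (G : Type) [Group G] : ℝ≥0∞ :=
  sInf {D | ∃ (Y : Type) (_ : MetricSpace Y), AhlforsRegular Y ∧
    (∃ (Z : Type) (_ : MetricSpace Z), VisualBoundary G Z ∧ QuasisymmetricEquiv Y Z) ∧
    D = dimH (Set.univ : Set Y)}

/-- The infimum of the Hausdorff dimensions of the visual metrics on the boundaries of all proper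
geodesic spaces with a geometric action of `G`. -/
noncomputable def visualDim (G : Type) [Group G] : ℝ≥0∞ :=
  sInf {D | ∃ (Z : Type) (_ : MetricSpace Z), VisualBoundary G Z ∧
    D = dimH (Set.univ : Set Z)}

end Pool.Agent.Y454.CD
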