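import Mathlib
import Pool.Agent.Y454.CD.Defs

set_option autoImplicit false

/-! # Conformal dimension of the boundary of a hyperbolic group: statements of the parts -/

namespace Pool.Agent.Y454.CD

open Filter MeasureTheory Pool.Agent.Helper376.LC
open scoped ENNReal NNReal Topology

/-- Working form of a geometric action of `G` on a hyperbolic space, with constants. -/
structure Hyp (G X : Type) [Group G] [MetricSpace X] [MulAction G X] (o : X) (δ R : ℝ) : Prop where
  geo : GeodesicSpace X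
  iso : ∀ (g : G) (x y : X), dist (g • x) (g • y) = dist x y
  nonneg : 0 ≤ δ
  hyp : ∀ o x y z : X, min (gprod o x z) (gprod o z y) - δ ≤ gprod o x y
  nonneg' : 0 ≤ R
  cob : ∀ x : X, ∃ g : G, dist x (g • o) ≤ R
  fin : ∀ r : ℝ, {g : G | dist o (g • o) ≤ r}.Finite

/-- A system of paths in the group `G` which behaves like the geodesics of a hyperbolic space, up
to finite subsets of `G`. -/
structure PathSystem (G : Type) [Group G] (L : G → G → Set G) : Prop where
  symm : ∀ x y, L x y = L y x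
  left : ∀ x y, x ∈ L x y
  small : ∀ F : Set G, F.Finite → ∃ F' : Set G, F'.Finite ∧
    ∀ x y, x⁻¹ * y ∈ F → ∀ u ∈ L x y, x⁻¹ * u ∈ F'
  path : ∃ F : Set G, F.Finite ∧ ∀ x y,
    Relation.ReflTransGen (fun a b => a ∈ L x y ∧ b ∈ L x y ∧ a⁻¹ * b ∈ F) x y
  thin : ∃ F : Set G, F.Finite ∧ ∀ x y z, ∀ u ∈ L x y, ∃ v ∈ L x z ∪ L z y, u⁻¹ * v ∈ F

/-- The vertices close to a geodesic from `x • o` to `y • o`. -/
def inter {G X : Type} [Group G] [MetricSpace X] [MulAction G X] (o : X) (C : ℝ) (x y : G) :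
    Set G := {v | gprod (v • o) (x • o) (y • o) ≤ C}

/-- PART A: a geodesic space with a geometric action of a group with a path system is hyperbolic,
and the paths are close to geodesics. -/
def StA : Prop := ∀ (G X : Type) [Group G] [MetricSpace X] [MulAction G X] (L : G → G → Set G),
  GeometricAction G X → PathSystem G L →
  GromovHyperbolic X ∧ ∀ o : X, ∃ R : ℝ,
    (∀ x y, ∀ v ∈ L x y, dist (x • o) (v • o) + dist (v • o) (y • o) ≤
      dist (x • o) (y • o) + R) ∧
    (∀ g x y : G, ∃ v ∈ L x y, dist (g • o) (v • o) ≤ gprod (g • o) (x • o) (y • o) + R)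

/-- PART A1: a hyperbolic group has a path system. -/
def StA1 : Prop := ∀ (G : Type) [Group G], HyperbolicGroup G → ∃ L, PathSystem G L

/-- PART A2: path system defined by the intervals in a hyperbolic space. -/
def StA2 : Prop := ∀ (G X : Type) [Group G] [MetricSpace X] [MulAction G X] (o : X) (δ R : ℝ),
  Hyp G X o δ R → ∃ C₀ : ℝ, ∀ C ≥ C₀, PathSystem G (inter (G := G) o C)

/-- PART B: the Cayley graph with edges of prescribed lengths, as a geodesic metric space. -/
def StB : Prop := ∀ (G : Type) [Group G] (B : Set G) (ℓ : G → ℝ), B.Finite →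
  Subgroup.closure B = ⊤ → (∀ t ∈ B, t⁻¹ ∈ B) → (∀ t ∈ B, 0 < ℓ t) → (∀ t ∈ B, ℓ t⁻¹ = ℓ t) →
  ∃ (X : Type) (_ : MetricSpace X) (_ : MulAction G X) (o : X), GeometricAction G X ∧
    (∀ t ∈ B, dist o (t • o) ≤ ℓ t) ∧
    ∀ g : G, ∃ w : List G, (∀ t ∈ w, t ∈ B) ∧ w.prod = g ∧ (w.map ℓ).sum ≤ dist o (g • o)

/-- PART C1: if the boundary is infinite then every group element can be moved away from any
direction by an element of a fixed finite set. -/
def StC1 : Prop := ∀ (G X : Type) [Group G] [MetricSpace X] [MulAction G X] [ProperSpace X]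
  (o : X) (δ R : ℝ), Hyp G X o δ R → Infinite (Boundary X) →
  ∃ (F : Set G) (C : ℝ), F.Finite ∧ ∀ a g : G, ∃ f ∈ F, gprod o (a • o) ((f * g) • o) ≤ C

/-- PART C: visual metrics are Ahlfors regular (Coornaert). -/
def StC : Prop := ∀ (G X Z : Type) [Group G] [MetricSpace X] [MulAction G X] [MetricSpace Z]
  (e : Z ≃ Boundary X), GeometricAction G X → GromovHyperbolic X → IsVisual e → AhlforsRegular Z

/-- PART D: a visual metric from a function satisfying the triangle inequality in the interior. -/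
def StD : Prop := ∀ (X : Type) [MetricSpace X] (o : X) (D : X → X → ℝ) (ε c C : ℝ),
  GromovHyperbolic X → 0 < ε → 0 < c → (∀ x y, D x y = D y x) →
  (∀ x y z, D x z ≤ D x y + D y z) →
  (∀ x y, c * Real.exp (-ε * gprod o x y) ≤ D x y ∧ D x y ≤ C * Real.exp (-ε * gprod o x y)) →
  ∃ (Z : Type) (_ : MetricSpace Z) (e : Z ≃ Boundary X), IsVisualWith o ε e

/-- The step relation in the subset `E` of the orbit. -/
def Step {G X : Type} [Group G] [MetricSpace X] [MulAction G X] (o : X) (E : Finset G) (L : ℝ)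
    (a b : G) : Prop := a ∈ E ∧ b ∈ E ∧ dist (a • o) (b • o) ≤ L

/-- The weight function `ρ` has mass at least `K` on each chain with steps at most `C₂` in the
annulus of radius `n` and width `R` around `o`, if the Gromov product of its end points is at most
`C₃`. -/
def Crossing {G X : Type} [Group G] [MetricSpace X] [MulAction G X] (o : X) (n R C₂ C₃ K : ℝ)
    (ρ : G → ℝ) : Prop :=
  ∀ (F : Finset G) (a b : G), (∀ s ∈ F, |dist o (s • o) - n| ≤ R) → a ∈ F →
    Relation.ReflTransGen (Step o F C₂) a b → gprod o (a • o) (b • o) ≤ C₃ → K ≤ ∑ s ∈ F, ρ s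

/-- PART E: weights from an Ahlfors regular metric in the conformal gauge. -/
def StE : Prop := ∀ (G X Y Z : Type) [Group G] [MetricSpace X] [MulAction G X] [MetricSpace Y]
  [MetricSpace Z] [ProperSpace X] (e : Z ≃ Boundary X) (o : X) (δ R : ℝ), Hyp G X o δ R →
  Infinite (Boundary X) → IsVisual e → AhlforsRegular Y → QuasisymmetricEquiv Y Z →
  ∀ p : ℝ≥0, dimH (Set.univ : Set Y) < p → ∀ (C₂ C₃ K η : ℝ), 0 < η →
  ∃ N : ℝ, ∀ n ≥ N, ∃ ρ : G → ℝ, (∀ g, 0 ≤ ρ g) ∧ Crossing o n R C₂ C₃ K ρ ∧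
    ∀ F : Finset G, (∀ s ∈ F, |dist o (s • o) - n| ≤ R) → ∑ s ∈ F, ρ s ^ (p : ℝ) ≤ η

/-- PART F: the Hausdorff dimension of a visual metric is at most the critical exponent. -/
def StF : Prop := ∀ (G X Z : Type) [Group G] [MetricSpace X] [MulAction G X] [MetricSpace Z]
  [ProperSpace X] (e : Z ≃ Boundary X) (o : X) (δ R ε : ℝ), Hyp G X o δ R → IsVisualWith o ε e →
  ∀ p : ℝ≥0, 0 < p → Summable (fun g : G => Real.exp (-(p * ε) * dist o (g • o))) →
  dimH (Set.univ : Set Z) ≤ p

/-- PART G: the main inequality. -/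
def StG : Prop := ∀ (G X : Type) [Group G] [MetricSpace X] [MulAction G X]
  (o : X) (δ R : ℝ), Hyp G X o δ R → ∀ L C₁ : ℝ, 0 ≤ L → 2 * R + δ ≤ C₁ →
  ∃ C₂ C₃ K N : ℝ, ∀ n ≥ N, ∀ ρ : G → ℝ, (∀ g, 0 ≤ ρ g) → Crossing o n R C₂ C₃ K ρ →
  ∀ (W : G → ℝ) (κ : ℝ), 0 < κ → (∀ g, 0 < W g) →
    (∀ g s : G, |dist o (s • o) - n| ≤ R → ρ s * W g ≤ W (g * s)) →
    (∀ g a : G, dist o (a • o) ≤ n + L → κ * W g ≤ W (g * a)) →
    ∀ (E : Finset G) (g a b : G), a ∈ E → Relation.ReflTransGen (Step o E L) a b →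
      gprod (g • o) (a • o) (b • o) ≤ C₁ → κ * W g ≤ ∑ v ∈ E, W v

/-- The theorem: the Ahlfors regular conformal dimension of the boundary of a hyperbolic group is
the infimum of the Hausdorff dimensions of the visual metrics for geometric actions. -/
def StMain : Prop := ∀ (G : Type) [Group G], HyperbolicGroup G → ACD G = visualDim G

end Pool.Agent.Y454.CD
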