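import Mathlib
import Pool.Agent.Y454.CD.Stm
import Pool.Agent.Helper376.LC.Bdry

set_option autoImplicit false

/-! # Basic facts: Gromov products of boundary points, visual metrics, orbits -/

namespace Pool.Agent.Y454.CD

open Filter MeasureTheory Pool.Agent.Helper376.LC
open scoped ENNReal NNReal Topology

theorem gprod_nonneg {X : Type} [MetricSpace X] (o x y : X) : 0 ≤ gprod o x y := by
  unfold gprod
  have := dist_triangle_right x y o
  linarith

theorem near_of_nonpos {X : Type} [MetricSpace X] {o : X} {R : ℝ} (hR : R ≤ 0)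
    (ξ η : Boundary X) : Near o R ξ η := by
  obtain ⟨u, hu⟩ := Quot.exists_rep ξ
  obtain ⟨v, hv⟩ := Quot.exists_rep η
  exact ⟨u, v, hu, hv, 0, fun m _ n _ => hR.trans (gprod_nonneg _ _ _)⟩

theorem le_bprod_of_near {X : Type} [MetricSpace X] {o : X} {R : ℝ} {ξ η : Boundary X}
    (h : Near o R ξ η) : ENNReal.ofReal R ≤ bprod o ξ η := by
  obtain ⟨u, v, hu, hv, N, hN⟩ := h
  unfold bprod
  refine le_iSup_of_le u (le_iSup_of_le v (le_iSup_of_le hu (le_iSup_of_le hv ?_)))
  refine le_liminf_of_le ?_ ?_
  · isBoundedDefault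
  · rw [eventually_atTop]
    exact ⟨(N, N), fun p hp => ENNReal.ofReal_le_ofReal (hN _ hp.1 _ hp.2)⟩

theorem near_of_lt_bprod {X : Type} [MetricSpace X] {o : X} {R : ℝ} {ξ η : Boundary X}
    (h : ENNReal.ofReal R < bprod o ξ η) : Near o R ξ η := by
  unfold bprod at h
  simp only [lt_iSup_iff] at h
  obtain ⟨u, v, hu, hv, h⟩ := h
  have h1 := eventually_lt_of_lt_liminf h
  rw [eventually_atTop] at h1
  obtain ⟨p, hp⟩ := h1
  refine ⟨u, v, hu, hv, max p.1 p.2, fun m hm n hn => ?_⟩
  have h2 := hp (m, n) ⟨(le_max_left _ _).trans hm, (le_max_right _ _).trans hn⟩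
  by_contra hcon
  push Not at hcon
  exact absurd (ENNReal.ofReal_le_ofReal hcon.le) (not_le.2 h2)

theorem bprod_ne_top {X : Type} [MetricSpace X] (hX : GromovHyperbolic X) {o : X}
    {ξ η : Boundary X} (hne : ξ ≠ η) : bprod o ξ η ≠ ⊤ := by
  intro h
  obtain ⟨δ, hδ, hyp⟩ := hyp_max hX
  apply hne
  refine j7_eq_of_near hδ hyp o ξ η (fun R => near_of_lt_bprod ?_)
  rw [h]
  exact ENNReal.ofReal_lt_top

/-- Working form of a visual metric. -/
theorem IsVisualWith.working {X Z : Type} [MetricSpace X] [MetricSpace Z]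
    (hX : GromovHyperbolic X) {o : X} {ε : ℝ} {e : Z ≃ Boundary X} (h : IsVisualWith o ε e) :
    0 < ε ∧ ∃ C : ℝ, 1 ≤ C ∧
      (∀ z w : Z, ∀ R : ℝ, Near o R (e z) (e w) → dist z w ≤ C * Real.exp (-ε * R)) ∧
      (∀ z w : Z, ∀ R : ℝ, dist z w < C⁻¹ * Real.exp (-ε * R) → Near o R (e z) (e w)) := by
  obtain ⟨hε, C, hC, h⟩ := h
  refine ⟨hε, C, hC, ?_, ?_⟩
  · intro z w R hR
    by_cases hzw : z = w
    · subst hzw
      rw [dist_self]
      positivity
    · obtain ⟨h1, h2⟩ := h z w hzw
      refine h2.trans ?_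
      have h3 := le_bprod_of_near hR
      have h4 : R ≤ (bprod o (e z) (e w)).toReal :=
        (ENNReal.ofReal_le_iff_le_toReal (bprod_ne_top hX (e.injective.ne hzw))).1 h3
      have h5 : Real.exp (-ε * (bprod o (e z) (e w)).toReal) ≤ Real.exp (-ε * R) := by
        apply Real.exp_le_exp.2
        nlinarith
      exact mul_le_mul_of_nonneg_left h5 (by linarith)
  · intro z w R hR
    by_cases hzw : z = w
    · subst hzw
      exact j7_near_self _ _ _
    · obtain ⟨h1, h2⟩ := h z w hzw
      have h3 := h1.trans_lt hR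
      have hC0 : 0 < C⁻¹ := by positivity
      have h4 := lt_of_mul_lt_mul_left h3 hC0.le
      rw [Real.exp_lt_exp] at h4
      have h5 : R < (bprod o (e z) (e w)).toReal := by nlinarith
      by_cases hR0 : R ≤ 0
      · exact near_of_nonpos hR0 _ _
      · push Not at hR0
        apply near_of_lt_bprod
        exact (ENNReal.ofReal_lt_iff_lt_toReal hR0.le (bprod_ne_top hX (e.injective.ne hzw))).2 h5

/-- Construction of a visual metric from the working form. -/
theorem IsVisualWith.of_working {X Z : Type} [MetricSpace X] [MetricSpace Z]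
    (hX : GromovHyperbolic X) {o : X} {ε : ℝ} {e : Z ≃ Boundary X} (hε : 0 < ε) (C : ℝ)
    (h1 : ∀ z w : Z, z ≠ w → ∀ R : ℝ, Near o R (e z) (e w) → dist z w ≤ C * Real.exp (-ε * R))
    (h2 : ∀ z w : Z, z ≠ w → ∀ R : ℝ, dist z w < C⁻¹ * Real.exp (-ε * R) → Near o R (e z) (e w)) :
    IsVisualWith o ε e := by
  refine ⟨hε, max 1 |C| * Real.exp ε, ?_, ?_⟩
  · have := Real.one_le_exp hε.le
    have h3 := le_max_left 1 |C|
    nlinarith
  · intro z w hzw
    have hb := bprod_ne_top hX (o := o) (e.injective.ne hzw)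
    set b := (bprod o (e z) (e w)).toReal with hbdef
    have hb0 : 0 ≤ b := ENNReal.toReal_nonneg
    have hCC : C ≤ max 1 |C| := (le_abs_self C).trans (le_max_right _ _)
    have hC1 : 1 ≤ max 1 |C| := le_max_left _ _
    have hd : 0 < dist z w := dist_pos.2 hzw
    constructor
    · by_contra hcon
      push Not at hcon
      have hCpos : 0 < C := by
        by_contra hC
        push Not at hC
        have := h1 z w hzw 0 (near_of_nonpos le_rfl _ _)
        have h4 : C * Real.exp (-ε * 0) ≤ 0 := mul_nonpos_of_nonpos_of_nonneg hC (Real.exp_pos _).le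
        linarith
      have h3 : Near o (b + 1) (e z) (e w) := by
        apply h2 z w hzw
        refine hcon.trans_le ?_
        rw [mul_inv, mul_assoc]
        have e1 : (Real.exp ε)⁻¹ * Real.exp (-ε * b) = Real.exp (-ε * (b + 1)) := by
          rw [← Real.exp_neg, ← Real.exp_add]
          ring_nf
        rw [e1]
        have e2 : (max 1 |C|)⁻¹ ≤ C⁻¹ := inv_anti₀ hCpos hCC
        exact mul_le_mul_of_nonneg_right e2 (Real.exp_pos _).le
      have h4 := le_bprod_of_near h3
      have h5 := (ENNReal.ofReal_le_iff_le_toReal hb).1 h4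
      linarith
    · by_cases hb1 : b ≤ 1
      · have h3 := h1 z w hzw 0 (near_of_nonpos le_rfl _ _)
        rw [mul_zero, Real.exp_zero, mul_one] at h3
        calc dist z w ≤ C := h3
          _ ≤ max 1 |C| * 1 := by linarith
          _ ≤ max 1 |C| * (Real.exp ε * Real.exp (-ε * b)) := by
              apply mul_le_mul_of_nonneg_left _ (by linarith)
              rw [← Real.exp_add]
              apply Real.one_le_exp
              nlinarith
          _ = _ := by ring
      · push Not at hb1
        have h3 : Near o (b - 1) (e z) (e w) := by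
          apply near_of_lt_bprod
          rw [ENNReal.ofReal_lt_iff_lt_toReal (by linarith) hb]
          linarith
        have h4 := h1 z w hzw _ h3
        calc dist z w ≤ C * Real.exp (-ε * (b - 1)) := h4
          _ ≤ max 1 |C| * Real.exp (-ε * (b - 1)) :=
              mul_le_mul_of_nonneg_right hCC (Real.exp_pos _).le
          _ = max 1 |C| * (Real.exp ε * Real.exp (-ε * b)) := by
              rw [← Real.exp_add]
              ring_nf
          _ = _ := by ring

/-- Constants for a geometric action on a hyperbolic space. -/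
theorem exists_hyp {G X : Type} [Group G] [MetricSpace X] [MulAction G X]
    (h : GeometricAction G X) (hX : GromovHyperbolic X) (o : X) : ∃ δ R, Hyp G X o δ R := by
  obtain ⟨δ, hδ, hyp⟩ := hyp_max hX
  obtain ⟨K, hK, hcov⟩ := h.cocompact
  obtain ⟨R, hR⟩ := hK.isBounded.subset_closedBall o
  refine ⟨δ, max R 0, h.geodesic, h.isometric, hδ, hyp, le_max_right _ _, ?_, ?_⟩
  · intro x
    obtain ⟨g, hg⟩ := hcov x
    refine ⟨g⁻¹, ?_⟩
    have h1 := hR hg
    rw [Metric.mem_closedBall] at h1
    rw [← h.isometric g, smul_inv_smul]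
    exact h1.trans (le_max_left _ _)
  · intro r
    haveI := h.proper
    refine (h.discontinuous (Metric.closedBall o r) (isCompact_closedBall o r)).subset ?_
    intro g hg
    have hg' : dist o (g • o) ≤ r := hg
    have hr : 0 ≤ r := dist_nonneg.trans hg'
    refine ⟨g • o, ⟨o, Metric.mem_closedBall_self hr, rfl⟩, ?_⟩
    rw [Metric.mem_closedBall, dist_comm]
    exact hg'

end Pool.Agent.Y454.CD
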