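import Mathlib
import Pool.Agent.Y454.CD.Basic

set_option autoImplicit false

/-! # Part G: the main inequality -/

namespace Pool.Agent.Y454.CD

open Filter MeasureTheory Pool.Agent.Helper376.LC
open scoped ENNReal NNReal Topology

section

variable {G X : Type} [Group G] [MetricSpace X] [MulAction G X] {o : X} {δ R : ℝ}

theorem Hyp.dist_mul (h : Hyp G X o δ R) (g s : G) :
    dist (g • o) ((g * s) • o) = dist o (s • o) := by
  rw [mul_smul, h.iso]

theorem Hyp.gprod_mul (h : Hyp G X o δ R) (g s t : G) :
    gprod (g • o) ((g * s) • o) ((g * t) • o) = gprod o (s • o) (t • o) := by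
  unfold gprod
  rw [mul_smul, mul_smul, h.iso, h.iso, h.iso]

theorem gprod_add_gprod {X : Type} [MetricSpace X] (t g v : X) :
    gprod t v g + gprod g t v = dist g t := by
  unfold gprod
  rw [dist_comm v t, dist_comm t g]
  ring

theorem dist_eq_gprod {X : Type} [MetricSpace X] (t x y : X) :
    dist x y = dist t x + dist t y - 2 * gprod t x y := by
  unfold gprod
  rw [dist_comm x t, dist_comm y t]
  ring

/-- Projection to the annulus of radius `n` around `g • o`. -/
theorem Hyp.proj (h : Hyp G X o δ R) (n : ℝ) (hn : 0 ≤ n) (g v : G)
    (hv : n ≤ dist (g • o) (v • o)) :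
    ∃ s : G, |dist o (s • o) - n| ≤ R ∧ n - R ≤ gprod (g • o) ((g * s) • o) (v • o) := by
  obtain ⟨γ, h0, h1, hγ⟩ := h.geo (g • o) (v • o)
  have hD : (0 : ℝ) ≤ dist (g • o) (v • o) := dist_nonneg
  have e1 : dist (g • o) (γ n) = n := by
    have := hγ 0 ⟨le_rfl, hD⟩ n ⟨hn, hv⟩
    rw [h0, zero_sub, abs_neg, abs_of_nonneg hn] at this
    exact this
  have e2 : dist (γ n) (v • o) = dist (g • o) (v • o) - n := by
    have := hγ n ⟨hn, hv⟩ _ ⟨hD, le_rfl⟩
    rw [h1, abs_sub_comm, abs_of_nonneg (by linarith)] at this
    exact this
  obtain ⟨k, hk⟩ := h.cob (γ n)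
  refine ⟨g⁻¹ * k, ?_, ?_⟩
  · rw [← h.dist_mul g, mul_inv_cancel_left, abs_le]
    have t1 := dist_triangle (g • o) (γ n) (k • o)
    have t2 := dist_triangle (g • o) (k • o) (γ n)
    rw [dist_comm (k • o)] at t2
    constructor <;> linarith
  · rw [mul_inv_cancel_left]
    unfold gprod
    have t2 := dist_triangle (g • o) (k • o) (γ n)
    have t3 := dist_triangle (k • o) (γ n) (v • o)
    rw [dist_comm (k • o) (γ n)] at t2 t3
    rw [dist_comm (k • o) (g • o), dist_comm (v • o) (g • o)]
    linarith

theorem reach_symm {o : X} {E : Finset G} {L : ℝ} {a b : G}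
    (h : Relation.ReflTransGen (Step o E L) a b) : Relation.ReflTransGen (Step o E L) b a := by
  induction h with
  | refl => exact Relation.ReflTransGen.refl
  | tail _ h2 ih =>
    exact Relation.ReflTransGen.head ⟨h2.2.1, h2.1, by rw [dist_comm]; exact h2.2.2⟩ ih

/-- A chain which leaves the subset `E'` has an initial part in `E'` up to a point which is close
to a point outside of `E'`. -/
theorem escape {o : X} {E E' : Finset G} {L : ℝ} {b : G} (hb : b ∉ E') (v : G)
    (h : Relation.ReflTransGen (Step o E L) v b) (hv : v ∈ E') :
    ∃ c ∈ E', Relation.ReflTransGen (Step o E' L) v c ∧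
      ∃ c' ∈ E, c' ∉ E' ∧ dist (c • o) (c' • o) ≤ L := by
  revert hv
  induction h using Relation.ReflTransGen.head_induction_on with
  | refl => exact fun hv => absurd hv hb
  | head h1 h2 ih =>
    rename_i v v'
    intro hv
    by_cases hv' : v' ∈ E'
    · obtain ⟨c, hc, h3, h4⟩ := ih hv'
      exact ⟨c, hc, Relation.ReflTransGen.head ⟨hv, hv', h1.2.2⟩ h3, h4⟩
    · exact ⟨v, hv, Relation.ReflTransGen.refl, v', h1.2.1, hv', h1.2.2⟩

end

theorem stG : StG := by
  classical
  intro G X _ _ _ o δ R h L C₁ hL hC₁
  have hδ := h.nonneg
  have hR := h.nonneg'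
  set lam : ℝ := L + 3 * R + δ + 1 with hlam
  set M : ℕ := (h.fin (2 * (R + lam + δ))).toFinset.card with hM
  have hMpos : 0 < M := by
    rw [hM, Finset.card_pos]
    refine ⟨1, ?_⟩
    rw [Set.Finite.mem_toFinset]
    show dist o ((1 : G) • o) ≤ _
    rw [one_smul, dist_self]
    linarith
  refine ⟨4 * R + 4 * δ, C₁ + 2 * δ, M, 2 * lam + R + 1 + C₁ + 2 * δ + 1, ?_⟩
  intro n hn ρ hρ hcross W κ hκ hW hW1 hW2
  have hn0 : 0 ≤ n := by linarith
  have key : ∀ (k : ℕ) (E : Finset G) (g a b : G), (∀ v ∈ E, dist (g • o) (v • o) ≤ k) → a ∈ E →
      Relation.ReflTransGen (Step o E L) a b → gprod (g • o) (a • o) (b • o) ≤ C₁ →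
      κ * W g ≤ ∑ v ∈ E, W v := by
    intro k
    induction k with
    | zero =>
      intro E g a b hk ha _ _
      have h1 := hk a ha
      have h2 := hW2 g (g⁻¹ * a) (by
        rw [← h.dist_mul g, mul_inv_cancel_left]
        push_cast at h1
        linarith)
      rw [mul_inv_cancel_left] at h2
      exact h2.trans (Finset.single_le_sum (fun v _ => (hW v).le) ha)
    | succ k ih =>
      intro E g a b hk ha hab hgab
      by_cases hclose : ∃ v ∈ E, dist (g • o) (v • o) ≤ n + L
      · obtain ⟨v, hv, hvd⟩ := hclose
        have h2 := hW2 g (g⁻¹ * v) (by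
          rw [← h.dist_mul g, mul_inv_cancel_left]
          exact hvd)
        rw [mul_inv_cancel_left] at h2
        exact h2.trans (Finset.single_le_sum (fun v _ => (hW v).le) hv)
      · push Not at hclose
        have hproj : ∀ v ∈ E, ∃ s : G, |dist o (s • o) - n| ≤ R ∧
            n - R ≤ gprod (g • o) ((g * s) • o) (v • o) := fun v hv =>
          h.proj n hn0 g v (by linarith [hclose v hv])
        choose! π hπ1 hπ2 using hproj
        set E' : Finset G := E.filter (fun v => Relation.ReflTransGen (Step o E L) a v) with hE'
        set F : Finset G := E'.image π with hF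
        have hmemE' : ∀ v, Relation.ReflTransGen (Step o E L) a v → v ∈ E' := by
          intro v hv
          rw [hE', Finset.mem_filter]
          refine ⟨?_, hv⟩
          rcases Relation.ReflTransGen.cases_tail hv with h1 | ⟨c, _, h1⟩
          · rw [h1]; exact ha
          · exact h1.2.1
        have hbE' : b ∈ E' := hmemE' b hab
        have hbE : b ∈ E := (Finset.mem_filter.1 hbE').1
        have hFann : ∀ s ∈ F, |dist o (s • o) - n| ≤ R := by
          intro s hs
          obtain ⟨v, hv, rfl⟩ := Finset.mem_image.1 hs
          exact hπ1 v (Finset.mem_filter.1 hv).1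
        -- the projected chain
        have hchain : ∀ v, Relation.ReflTransGen (Step o E L) a v →
            Relation.ReflTransGen (Step o F (4 * R + 4 * δ)) (π a) (π v) := by
          intro v hv
          induction hv with
          | refl => exact Relation.ReflTransGen.refl
          | tail h1 h2 ih2 =>
            rename_i v v'
            refine ih2.tail ⟨Finset.mem_image_of_mem _ (hmemE' _ h1),
              Finset.mem_image_of_mem _ (hmemE' _ (h1.tail h2)), ?_⟩
            have e1 := hclose v h2.1
            have e2 := hclose v' h2.2.1
            have e3 := h2.2.2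
            have e4 := hπ2 v h2.1
            have e5 := hπ2 v' h2.2.1
            have e6 : n ≤ gprod (g • o) (v • o) (v' • o) := by
              unfold gprod
              rw [dist_comm (v • o) (g • o), dist_comm (v' • o) (g • o)]
              linarith
            have e7 := h.hyp (g • o) (v • o) ((g * π v') • o) (v' • o)
            rw [gprod_comm (g • o) (v' • o)] at e7
            have e8 : n - R ≤ min (gprod (g • o) (v • o) (v' • o))
                (gprod (g • o) ((g * π v') • o) (v' • o)) := le_min (by linarith) e5
            have e9 := h.hyp (g • o) ((g * π v) • o) ((g * π v') • o) (v • o)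
            have e10 : n - R - δ ≤ min (gprod (g • o) ((g * π v) • o) (v • o))
                (gprod (g • o) (v • o) ((g * π v') • o)) := le_min (by linarith) (by linarith)
            rw [h.gprod_mul] at e9
            rw [dist_eq_gprod o]
            have e11 := abs_le.1 (hπ1 v h2.1)
            have e12 := abs_le.1 (hπ1 v' h2.2.1)
            linarith
        have hsum := hcross F (π a) (π b) hFann (Finset.mem_image_of_mem _ (hmemE' a .refl))
          (hchain b hab) (by
            by_contra hcon
            push Not at hcon
            rw [← h.gprod_mul g] at hcon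
            have e4 := hπ2 a ha
            have e5 := hπ2 b hbE
            have e7 := h.hyp (g • o) ((g * π a) • o) (b • o) ((g * π b) • o)
            have e8 : C₁ + 2 * δ < min (gprod (g • o) ((g * π a) • o) ((g * π b) • o))
                (gprod (g • o) ((g * π b) • o) (b • o)) := lt_min hcon (by linarith)
            have e9 := h.hyp (g • o) (a • o) (b • o) ((g * π a) • o)
            rw [gprod_comm (g • o) (a • o)] at e9
            have e10 : C₁ + δ < min (gprod (g • o) ((g * π a) • o) (a • o))
                (gprod (g • o) ((g * π a) • o) (b • o)) := lt_min (by linarith) (by linarith)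
            linarith)
        -- the part of `E` behind `g * s`
        set Es : G → Finset G := fun s =>
          E.filter (fun w => n - lam ≤ gprod (g • o) ((g * s) • o) (w • o)) with hEs
        have hpart : ∀ s ∈ F, κ * W (g * s) ≤ ∑ w ∈ Es s, W w := by
          intro s hs
          obtain ⟨v, hv, hvs⟩ := Finset.mem_image.1 hs
          have hvE : v ∈ E := (Finset.mem_filter.1 hv).1
          have hav : Relation.ReflTransGen (Step o E L) a v := (Finset.mem_filter.1 hv).2
          have hsn := abs_le.1 (hFann s hs)
          have hv2 : n - R ≤ gprod (g • o) ((g * s) • o) (v • o) := by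
            rw [← hvs]; exact hπ2 v hvE
          have hvEs : v ∈ Es s := by
            rw [hEs, Finset.mem_filter]
            exact ⟨hvE, by linarith⟩
          have hesc : ∃ c ∈ Es s, Relation.ReflTransGen (Step o (Es s) L) v c ∧
              ∃ c' ∈ E, c' ∉ Es s ∧ dist (c • o) (c' • o) ≤ L := by
            by_cases hb : b ∈ Es s
            · by_cases haa : a ∈ Es s
              · exfalso
                have f1 := (Finset.mem_filter.1 hb).2
                have f2 := (Finset.mem_filter.1 haa).2
                have f3 := h.hyp (g • o) (a • o) (b • o) ((g * s) • o)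
                rw [gprod_comm (g • o) (a • o) ((g * s) • o)] at f3
                have f4 := le_min f2 f1
                linarith
              · exact escape haa v (reach_symm hav) hvEs
            · exact escape hb v ((reach_symm hav).trans hab) hvEs
          obtain ⟨c, hc, hvc, c', hc'E, hc', hcc'⟩ := hesc
          refine ih (Es s) (g * s) v c ?_ hvEs hvc ?_
          · intro w hw
            have f1 := (Finset.mem_filter.1 hw).2
            have f2 := hk w (Finset.mem_filter.1 hw).1
            rw [dist_eq_gprod (g • o), h.dist_mul]
            push_cast at f2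
            linarith
          · have f1 : gprod (g • o) ((g * s) • o) (c' • o) < n - lam := by
              by_contra hcon
              push Not at hcon
              exact hc' (Finset.mem_filter.2 ⟨hc'E, hcon⟩)
            have f2 := j7_gprod_sub_le_right (g • o) ((g * s) • o) (c • o) (c' • o)
            have f3 := gprod_add_gprod ((g * s) • o) (g • o) (c • o)
            have f4 := gprod_add_gprod ((g * s) • o) (g • o) (v • o)
            rw [h.dist_mul] at f3 f4
            have f5 := h.hyp ((g * s) • o) (v • o) (g • o) (c • o)
            by_contra hcon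
            push Not at hcon
            have f6 : 2 * R + δ < min (gprod ((g * s) • o) (v • o) (c • o))
                (gprod ((g * s) • o) (c • o) (g • o)) := lt_min (by linarith) (by linarith)
            linarith
        -- multiplicity
        have hmult : ∀ w : G, (F.filter (fun s => w ∈ Es s)).card ≤ M := by
          intro w
          rcases (F.filter (fun s => w ∈ Es s)).eq_empty_or_nonempty with he | ⟨s₀, hs₀⟩
          · rw [he]; simp
          · rw [hM]
            refine Finset.card_le_card_of_injOn (fun s => s₀⁻¹ * s) ?_ ?_
            · intro s hs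
              have hs := Finset.mem_coe.1 hs
              rw [Finset.mem_filter] at hs hs₀
              simp only [Set.Finite.coe_toFinset, Set.mem_ofPred_eq]
              rw [← h.dist_mul s₀, mul_inv_cancel_left, dist_eq_gprod o]
              have f1 := abs_le.1 (hFann s hs.1)
              have f2 := abs_le.1 (hFann s₀ hs₀.1)
              have f3 := (Finset.mem_filter.1 hs.2).2
              have f4 := (Finset.mem_filter.1 hs₀.2).2
              have f5 := h.hyp (g • o) ((g * s₀) • o) ((g * s) • o) (w • o)
              rw [h.gprod_mul, gprod_comm (g • o) (w • o)] at f5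
              have f6 := le_min f4 f3
              linarith
            · intro s _ s' _ hss
              exact mul_left_cancel hss
        -- summation
        have hdouble : ∑ s ∈ F, ∑ w ∈ Es s, W w ≤ M * ∑ w ∈ E, W w := by
          have e1 : ∀ s, ∑ w ∈ Es s, W w = ∑ w ∈ E, if w ∈ Es s then W w else 0 := by
            intro s
            rw [← Finset.sum_filter]
            congr 1
            ext w
            simp only [hEs, Finset.mem_filter]
            tauto
          calc ∑ s ∈ F, ∑ w ∈ Es s, W w
              = ∑ s ∈ F, ∑ w ∈ E, if w ∈ Es s then W w else 0 := by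
                exact Finset.sum_congr rfl fun s _ => e1 s
            _ = ∑ w ∈ E, ∑ s ∈ F, if w ∈ Es s then W w else 0 := Finset.sum_comm
            _ = ∑ w ∈ E, ((F.filter (fun s => w ∈ Es s)).card : ℝ) * W w := by
                refine Finset.sum_congr rfl fun w _ => ?_
                rw [← Finset.sum_filter, Finset.sum_const, nsmul_eq_mul]
            _ ≤ ∑ w ∈ E, (M : ℝ) * W w := by
                refine Finset.sum_le_sum fun w _ => ?_
                exact mul_le_mul_of_nonneg_right (by exact_mod_cast hmult w) (hW w).le
            _ = M * ∑ w ∈ E, W w := by rw [Finset.mul_sum]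
        have hlow : κ * W g * M ≤ ∑ s ∈ F, ∑ w ∈ Es s, W w := by
          calc κ * W g * M ≤ κ * W g * ∑ s ∈ F, ρ s :=
                mul_le_mul_of_nonneg_left hsum (mul_nonneg hκ.le (hW g).le)
            _ = ∑ s ∈ F, κ * (ρ s * W g) := by
                rw [Finset.mul_sum]
                exact Finset.sum_congr rfl fun s _ => by ring
            _ ≤ ∑ s ∈ F, κ * W (g * s) := Finset.sum_le_sum fun s hs =>
                mul_le_mul_of_nonneg_left (hW1 g s (hFann s hs)) hκ.le
            _ ≤ _ := Finset.sum_le_sum hpart
        have hMr : (0 : ℝ) < M := by exact_mod_cast hMpos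
        have := hlow.trans hdouble
        rw [mul_comm (κ * W g)] at this
        exact le_of_mul_le_mul_left this hMr
  intro E g a b ha hab hgab
  obtain ⟨k, hk⟩ : ∃ k : ℕ, ∀ v ∈ E, dist (g • o) (v • o) ≤ k := by
    obtain ⟨k, hk⟩ := exists_nat_ge (∑ v ∈ E, dist (g • o) (v • o))
    exact ⟨k, fun v hv => (Finset.single_le_sum (f := fun v => dist (g • o) (v • o))
      (fun v _ => dist_nonneg) hv).trans hk⟩
  exact key k E g a b hk ha hab hgab

end Pool.Agent.Y454.CD
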