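import Mathlib
import Pool.Agent.Y454.CD.PartG

set_option autoImplicit false

/-! # Tools: change of base point, translates of sequences, visibility -/

namespace Pool.Agent.Y454.CD

open Filter MeasureTheory Pool.Agent.Helper376.LC
open scoped ENNReal NNReal Topology

theorem near_base {X : Type} [MetricSpace X] {o o' : X} {R : ℝ} {ξ η : Boundary X}
    (h : Near o R ξ η) : Near o' (R - dist o o') ξ η := by
  obtain ⟨u, v, hu, hv, N, hN⟩ := h
  refine ⟨u, v, hu, hv, N, fun m hm n hn => ?_⟩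
  have h1 := hN m hm n hn
  have h2 := gprod_base o o' (u.seq m) (v.seq n)
  linarith

/-- Working form of a visual metric, for an arbitrary base point. -/
theorem IsVisual.working {X Z : Type} [MetricSpace X] [MetricSpace Z]
    (hX : GromovHyperbolic X) {e : Z ≃ Boundary X} (h : IsVisual e) (o : X) :
    ∃ ε C : ℝ, 0 < ε ∧ 1 ≤ C ∧
      (∀ z w : Z, ∀ R : ℝ, Near o R (e z) (e w) → dist z w ≤ C * Real.exp (-ε * R)) ∧
      (∀ z w : Z, ∀ R : ℝ, dist z w < C⁻¹ * Real.exp (-ε * R) → Near o R (e z) (e w)) := by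
  obtain ⟨o', ε, h⟩ := h
  obtain ⟨hε, C, hC, h1, h2⟩ := h.working hX
  have hd : 0 ≤ dist o o' := dist_nonneg
  have hE : 1 ≤ Real.exp (ε * dist o o') := Real.one_le_exp (by positivity)
  refine ⟨ε, C * Real.exp (ε * dist o o'), hε, by nlinarith, ?_, ?_⟩
  · intro z w R hR
    refine (h1 z w _ (near_base (o' := o') hR)).trans ?_
    rw [mul_assoc, ← Real.exp_add]
    apply le_of_eq
    congr 2
    ring
  · intro z w R hR
    have h3 : Near o' (R + dist o o') (e z) (e w) := by
      apply h2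
      refine hR.trans_le ?_
      rw [mul_inv, mul_assoc, ← Real.exp_neg, ← Real.exp_add]
      apply le_of_eq
      congr 2
      ring
    have h4 := near_base (o' := o) h3
    rw [dist_comm o' o] at h4
    simpa using h4

theorem gprod_smul {G X : Type} [Group G] [MetricSpace X] [MulAction G X]
    (hiso : ∀ (g : G) (x y : X), dist (g • x) (g • y) = dist x y) (g : G) (o x y : X) :
    gprod (g • o) (g • x) (g • y) = gprod o x y := by
  unfold gprod
  rw [hiso, hiso, hiso]

/-- The translate of a sequence converging to infinity. -/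
theorem exists_smul {G X : Type} [Group G] [MetricSpace X] [MulAction G X]
    (hiso : ∀ (g : G) (x y : X), dist (g • x) (g • y) = dist x y) (g : G) (u : GromovSeq X) :
    ∃ v : GromovSeq X, ∀ n, v.seq n = g • u.seq n := by
  refine ⟨⟨fun n => g • u.seq n, fun o R => ?_⟩, fun n => rfl⟩
  obtain ⟨N, hN⟩ := u.conv (g⁻¹ • o) R
  refine ⟨N, fun m hm n hn => ?_⟩
  have := hN m hm n hn
  rw [← gprod_smul hiso g, smul_inv_smul] at this
  exact this

/-- The product of points close to boundary points. -/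
theorem gprod_of_near {X : Type} [MetricSpace X] {δ : ℝ} (hδ : 0 ≤ δ)
    (hyp : ∀ o x y z : X, min (gprod o x z) (gprod o z y) - δ ≤ gprod o x y)
    {o : X} {T : ℝ} {x y : X} {ζ ξ : Boundary X} (hx : PB o T x ζ) (hy : PB o T y ξ)
    (h : Near o T ζ ξ) : T - 4 * δ ≤ gprod o x y := by
  obtain ⟨u, hu⟩ := Quot.exists_rep ζ
  obtain ⟨v, hv⟩ := Quot.exists_rep ξ
  obtain ⟨N1, hN1⟩ := hx.of_rep hyp u hu
  obtain ⟨N2, hN2⟩ := hy.of_rep hyp v hv
  obtain ⟨N3, hN3⟩ := Near.of_reps δ hδ hyp o T ζ ξ h u v hu hv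
  set n := max N1 (max N2 N3) with hn
  have a1 := hN1 n (le_max_left _ _)
  have a2 := hN2 n ((le_max_left _ _).trans (le_max_right _ _))
  have a3 := hN3 n ((le_max_right _ _).trans (le_max_right _ _)) n
    ((le_max_right _ _).trans (le_max_right _ _))
  have b1 := hyp o (u.seq n) y (v.seq n)
  rw [gprod_comm o (v.seq n) y] at b1
  have b2 := hyp o x y (u.seq n)
  have c1 : T - 2 * δ ≤ min (gprod o (u.seq n) (v.seq n)) (gprod o y (v.seq n)) :=
    le_min (by linarith) (by linarith)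
  have c2 : T - 3 * δ ≤ min (gprod o x (u.seq n)) (gprod o (u.seq n) y) :=
    le_min (by linarith) (by linarith)
  linarith

/-- Two sequences converging to distinct boundary points have bounded Gromov products. -/
theorem bounded_of_ne {X : Type} [MetricSpace X] {δ : ℝ} (hδ : 0 ≤ δ)
    (hyp : ∀ o x y z : X, min (gprod o x z) (gprod o z y) - δ ≤ gprod o x y) (o : X)
    (u v : GromovSeq X) (hne : u.lim ≠ v.lim) :
    ∃ (C : ℝ) (N : ℕ), ∀ m ≥ N, ∀ n ≥ N, gprod o (u.seq m) (v.seq n) ≤ C := by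
  have h1 : ¬ ∀ R : ℝ, ∃ N : ℕ, ∀ n ≥ N, R ≤ gprod o (u.seq n) (v.seq n) := fun h =>
    hne ((GromovSeq.lim_eq_iff ⟨δ, hyp⟩ u v).2 (GromovSeq.equiv_of_base o u v h))
  push Not at h1
  obtain ⟨R, hR⟩ := h1
  obtain ⟨N1, hN1⟩ := u.conv o (R + 2 * δ)
  obtain ⟨N2, hN2⟩ := v.conv o (R + 2 * δ)
  refine ⟨R + 2 * δ, max N1 N2, fun m hm n hn => ?_⟩
  by_contra hcon
  push Not at hcon
  obtain ⟨k, hk, hk2⟩ := hR (max N1 N2)
  have a1 := hN1 k (le_of_max_le_left hk) m (le_of_max_le_left hm)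
  have a2 := hN2 n (le_of_max_le_right hn) k (le_of_max_le_right hk)
  have b1 := hyp o (u.seq m) (v.seq k) (v.seq n)
  have b2 := hyp o (u.seq k) (v.seq k) (u.seq m)
  have c1 : R + 2 * δ ≤ min (gprod o (u.seq m) (v.seq n)) (gprod o (v.seq n) (v.seq k)) :=
    le_min hcon.le a2
  have c2 : R + δ ≤ min (gprod o (u.seq k) (u.seq m)) (gprod o (u.seq m) (v.seq k)) :=
    le_min (by linarith) (by linarith)
  linarith

/-- Visibility: every orbit point lies close to a ray from `o`. -/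
theorem Hyp.visibility {G X : Type} [Group G] [MetricSpace X] [MulAction G X] {o : X} {δ R : ℝ}
    (h : Hyp G X o δ R) (hB : ∃ ξ η : Boundary X, ξ ≠ η) :
    ∃ C : ℝ, 0 ≤ C ∧ ∀ s : G, ∃ ζ : Boundary X, PB o (dist o (s • o) - C) (s • o) ζ := by
  have hδ := h.nonneg
  obtain ⟨ξ, η, hne⟩ := hB
  obtain ⟨u, hu⟩ := Quot.exists_rep ξ
  obtain ⟨v, hv⟩ := Quot.exists_rep η
  have hne' : u.lim ≠ v.lim := by
    intro h1
    apply hne
    rw [← hu, ← hv]
    exact h1
  obtain ⟨C, N, hC⟩ := bounded_of_ne hδ h.hyp o u v hne'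
  refine ⟨|C| + 2 * δ, by positivity, fun s => ?_⟩
  obtain ⟨u', hu'⟩ := exists_smul h.iso s u
  obtain ⟨v', hv'⟩ := exists_smul h.iso s v
  -- a sequence with infinitely many good terms
  have aux : ∀ w : GromovSeq X, (∀ M : ℕ, ∃ n ≥ M, gprod (s • o) (w.seq n) o ≤ |C| + δ) →
      PB o (dist o (s • o) - (|C| + 2 * δ)) (s • o) w.lim := by
    intro w hw
    obtain ⟨M, hM⟩ := w.conv o (dist o (s • o))
    obtain ⟨n, hn, hn2⟩ := hw M
    refine ⟨w, rfl, M, fun m hm => ?_⟩
    have a1 := hM n hn m hm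
    have a2 := gprod_add_gprod (s • o) o (w.seq n)
    have a3 := h.hyp o (s • o) (w.seq m) (w.seq n)
    have a4 : dist o (s • o) - (|C| + δ) ≤
        min (gprod o (s • o) (w.seq n)) (gprod o (w.seq n) (w.seq m)) :=
      le_min (by linarith) (by linarith [abs_nonneg C])
    linarith
  by_cases hcase : ∀ M : ℕ, ∃ n ≥ M, gprod (s • o) (u'.seq n) o ≤ |C| + δ
  · exact ⟨_, aux u' hcase⟩
  · refine ⟨_, aux v' fun M => ?_⟩
    push Not at hcase
    obtain ⟨M', hM'⟩ := hcase
    refine ⟨max M (max M' N), le_max_left _ _, ?_⟩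
    set n := max M (max M' N) with hn
    have a1 := hM' n ((le_max_left _ _).trans (le_max_right _ _))
    have a2 := hC n ((le_max_right _ _).trans (le_max_right _ _)) n
      ((le_max_right _ _).trans (le_max_right _ _))
    rw [← gprod_smul h.iso s, ← hu', ← hv'] at a2
    have a3 := h.hyp (s • o) (u'.seq n) (v'.seq n) o
    rw [gprod_comm (s • o) (v'.seq n) o]
    by_contra hcon
    push Not at hcon
    have a4 := lt_min a1 hcon
    have := le_abs_self C
    linarith

theorem PB.near_point {X : Type} [MetricSpace X] {o : X} {T D : ℝ} {x y : X} {ζ : Boundary X}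
    (h : PB o T x ζ) (hxy : dist x y ≤ D) : PB o (T - D) y ζ := by
  obtain ⟨u, hu, N, hN⟩ := h
  refine ⟨u, hu, N, fun n hn => ?_⟩
  have h1 := hN n hn
  have h2 := j7_gprod_sub_le o x y (u.seq n)
  linarith

/-- Orbit points along a ray to a boundary point. -/
theorem Hyp.ray {G X : Type} [Group G] [MetricSpace X] [MulAction G X] {o : X} {δ R : ℝ}
    (h : Hyp G X o δ R) (ζ : Boundary X) (t : ℝ) (ht : 0 ≤ t) :
    ∃ g : G, |dist o (g • o) - t| ≤ R ∧ PB o (t - R - δ) (g • o) ζ := by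
  have hδ := h.nonneg
  have hR := h.nonneg'
  obtain ⟨u, hu⟩ := Quot.exists_rep ζ
  obtain ⟨N, hN⟩ := u.conv o t
  have h0 : t ≤ dist o (u.seq N) := by
    have := hN N le_rfl N le_rfl
    rwa [j7_gprod_self] at this
  obtain ⟨γ, g0, g1, hγ⟩ := h.geo o (u.seq N)
  have hD : (0 : ℝ) ≤ dist o (u.seq N) := dist_nonneg
  have e1 : dist o (γ t) = t := by
    have := hγ 0 ⟨le_rfl, hD⟩ t ⟨ht, h0⟩
    rw [g0, zero_sub, abs_neg, abs_of_nonneg ht] at this
    exact this
  have e2 : dist (γ t) (u.seq N) = dist o (u.seq N) - t := by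
    have := hγ t ⟨ht, h0⟩ _ ⟨hD, le_rfl⟩
    rw [g1, abs_sub_comm, abs_of_nonneg (by linarith)] at this
    exact this
  obtain ⟨k, hk⟩ := h.cob (γ t)
  have t1 := dist_triangle o (γ t) (k • o)
  have t2 := dist_triangle o (k • o) (γ t)
  have t3 := dist_triangle (k • o) (γ t) (u.seq N)
  rw [dist_comm (k • o) (γ t)] at t2 t3
  refine ⟨k, ?_, u, hu, N, fun n hn => ?_⟩
  · rw [abs_le]
    constructor <;> linarith
  · have a1 := hN N le_rfl n hn
    have a2 : t - R ≤ gprod o (k • o) (u.seq N) := by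
      unfold gprod
      rw [dist_comm (k • o) o, dist_comm (u.seq N) o]
      linarith
    have a3 := h.hyp o (k • o) (u.seq n) (u.seq N)
    have a4 : t - R ≤ min (gprod o (k • o) (u.seq N)) (gprod o (u.seq N) (u.seq n)) :=
      le_min a2 (by linarith)
    linarith

end Pool.Agent.Y454.CD
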