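import Mathlib
import Pool.Agent.Y454.CD.Tools

set_option autoImplicit false

/-! # Part D: a visual metric from an interior chain metric -/

namespace Pool.Agent.Y454.CD

open Filter MeasureTheory Pool.Agent.Helper376.LC
open scoped ENNReal NNReal Topology

theorem stD : StD := by
  intro X _ o D ε c C hX hε hc hsymm htri hD
  obtain ⟨δ, hδ, hyp⟩ := hyp_max hX
  -- equivalent sequences
  have hsmall : ∀ u v : GromovSeq X, u.lim = v.lim → ∀ τ > 0, ∃ N : ℕ, ∀ m ≥ N, ∀ n ≥ N,
      D (u.seq m) (v.seq n) < τ := by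
    intro u v huv τ hτ
    have h1 : Tendsto (fun x : ℝ => C * Real.exp (-ε * x)) atTop (𝓝 (C * 0)) := by
      apply Tendsto.const_mul
      apply Real.tendsto_exp_atBot.comp
      exact tendsto_id.const_mul_atTop_of_neg (by linarith)
    rw [mul_zero] at h1
    obtain ⟨x, hx⟩ := eventually_atTop.1 (h1.eventually (eventually_lt_nhds hτ))
    obtain ⟨N, hN⟩ := Near.of_reps δ hδ hyp o (x + 2 * δ) u.lim u.lim
      (j7_near_self o u.lim _) u v rfl huv.symm
    refine ⟨N, fun m hm n hn => ((hD _ _).2).trans_lt (hx _ ?_)⟩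
    have := hN m hm n hn
    linarith
  have habs : ∀ x y x' y', |D x y - D x' y'| ≤ D x x' + D y y' := by
    intro x y x' y'
    rw [abs_le]
    have h1 := htri x x' y
    have h2 := htri x' y' y
    have h3 := htri x' x y'
    have h4 := htri x y y'
    rw [hsymm y' y] at h2
    rw [hsymm x' x] at h3
    constructor <;> linarith
  have hcau : ∀ u v : GromovSeq X, CauchySeq (fun n => D (u.seq n) (v.seq n)) := by
    intro u v
    rw [Metric.cauchySeq_iff]
    intro τ hτ
    obtain ⟨N1, hN1⟩ := hsmall u u rfl (τ / 2) (by linarith)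
    obtain ⟨N2, hN2⟩ := hsmall v v rfl (τ / 2) (by linarith)
    refine ⟨max N1 N2, fun m hm n hn => ?_⟩
    have a1 := hN1 m (le_of_max_le_left hm) n (le_of_max_le_left hn)
    have a2 := hN2 m (le_of_max_le_right hm) n (le_of_max_le_right hn)
    have a3 := habs (u.seq m) (v.seq m) (u.seq n) (v.seq n)
    rw [Real.dist_eq]
    linarith
  set rep : Boundary X → GromovSeq X := fun ξ => Quot.out ξ with hrep
  have hreplim : ∀ ξ, (rep ξ).lim = ξ := fun ξ => Quot.out_eq ξ
  set d : Boundary X → Boundary X → ℝ := fun ξ η =>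
    limUnder atTop (fun n => D ((rep ξ).seq n) ((rep η).seq n)) with hd
  have hlim : ∀ (u v : GromovSeq X),
      Tendsto (fun n => D (u.seq n) (v.seq n)) atTop (𝓝 (d u.lim v.lim)) := by
    intro u v
    have h1 : Tendsto (fun n => D ((rep u.lim).seq n) ((rep v.lim).seq n)) atTop
        (𝓝 (d u.lim v.lim)) := CauchySeq.tendsto_limUnder (hcau (rep u.lim) (rep v.lim))
    have h2 : Tendsto (fun n => D (u.seq n) (v.seq n) -
        D ((rep u.lim).seq n) ((rep v.lim).seq n)) atTop (𝓝 0) := by
      rw [Metric.tendsto_atTop]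
      intro τ hτ
      obtain ⟨N1, hN1⟩ := hsmall u (rep u.lim) (hreplim _).symm (τ / 2) (by linarith)
      obtain ⟨N2, hN2⟩ := hsmall v (rep v.lim) (hreplim _).symm (τ / 2) (by linarith)
      refine ⟨max N1 N2, fun n hn => ?_⟩
      have a1 := hN1 n (le_of_max_le_left hn) n (le_of_max_le_left hn)
      have a2 := hN2 n (le_of_max_le_right hn) n (le_of_max_le_right hn)
      have a3 := habs (u.seq n) (v.seq n) ((rep u.lim).seq n) ((rep v.lim).seq n)
      rw [Real.dist_eq, sub_zero]
      linarith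
    have h3 := h1.add h2
    rw [add_zero] at h3
    refine h3.congr fun n => ?_
    ring
  have hself : ∀ ξ, d ξ ξ = 0 := by
    intro ξ
    have h1 := hlim (rep ξ) (rep ξ)
    rw [hreplim] at h1
    refine tendsto_nhds_unique h1 ?_
    rw [Metric.tendsto_atTop]
    intro τ hτ
    obtain ⟨N, hN⟩ := hsmall (rep ξ) (rep ξ) rfl τ hτ
    refine ⟨N, fun n hn => ?_⟩
    rw [Real.dist_eq, sub_zero, abs_of_nonneg]
    · exact hN n hn n hn
    · exact le_trans (by positivity) (hD _ _).1
  have hcomm : ∀ ξ η, d ξ η = d η ξ := by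
    intro ξ η
    have h1 := hlim (rep ξ) (rep η)
    have h2 := hlim (rep η) (rep ξ)
    rw [hreplim, hreplim] at h1 h2
    exact tendsto_nhds_unique h1 (h2.congr fun n => hsymm _ _)
  have htriangle : ∀ ξ η ζ, d ξ ζ ≤ d ξ η + d η ζ := by
    intro ξ η ζ
    have h1 := hlim (rep ξ) (rep η)
    have h2 := hlim (rep η) (rep ζ)
    have h3 := hlim (rep ξ) (rep ζ)
    rw [hreplim, hreplim] at h1 h2 h3
    exact le_of_tendsto_of_tendsto' h3 (h1.add h2) fun n => htri _ _ _
  have hmain : ∀ ξ η (T : ℝ), d ξ η < (max C c⁻¹)⁻¹ * Real.exp (-ε * T) → Near o T ξ η := by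
    intro ξ η T hT
    have hmax : 0 < max C c⁻¹ := lt_of_lt_of_le (by positivity) (le_max_right C c⁻¹)
    have hle : (max C c⁻¹)⁻¹ ≤ c := by
      rw [inv_le_comm₀ hmax hc]
      exact le_max_right _ _
    set B := (max C c⁻¹)⁻¹ * Real.exp (-ε * T) with hB
    have h1 := hlim (rep ξ) (rep η)
    rw [hreplim, hreplim] at h1
    obtain ⟨N1, hN1⟩ := eventually_atTop.1 (h1.eventually
      (eventually_lt_nhds (show d ξ η < (d ξ η + B) / 2 by linarith)))
    obtain ⟨N2, hN2⟩ := hsmall (rep ξ) (rep ξ) rfl ((B - d ξ η) / 2) (by linarith)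
    refine ⟨rep ξ, rep η, hreplim _, hreplim _, max N1 N2, fun m hm n hn => ?_⟩
    have a1 := hN1 n (le_of_max_le_left hn)
    have a2 := hN2 m (le_of_max_le_right hm) n (le_of_max_le_right hn)
    have a3 := htri ((rep ξ).seq m) ((rep ξ).seq n) ((rep η).seq n)
    have a4 := (hD ((rep ξ).seq m) ((rep η).seq n)).1
    have a5 : c * Real.exp (-ε * gprod o ((rep ξ).seq m) ((rep η).seq n)) <
        c * Real.exp (-ε * T) := by
      have a6 : B ≤ c * Real.exp (-ε * T) := mul_le_mul_of_nonneg_right hle (Real.exp_pos _).le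
      linarith
    have a7 := lt_of_mul_lt_mul_left a5 hc.le
    rw [Real.exp_lt_exp] at a7
    nlinarith
  let m : MetricSpace (Boundary X) :=
    { dist := d
      dist_self := hself
      dist_comm := hcomm
      dist_triangle := htriangle
      eq_of_dist_eq_zero := by
        intro ξ η h0
        refine j7_eq_of_near hδ hyp o ξ η fun T => hmain ξ η T ?_
        have h1 : d ξ η = 0 := h0
        have hmax : 0 < max C c⁻¹ := lt_of_lt_of_le (by positivity) (le_max_right C c⁻¹)
        rw [h1]
        positivity }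
  refine ⟨Boundary X, m, Equiv.refl _, ?_⟩
  refine IsVisualWith.of_working hX hε (max C c⁻¹) ?_ ?_
  · intro z w _ T hT
    obtain ⟨u, v, hu, hv, N, hN⟩ := hT
    have h1 := hlim u v
    rw [hu, hv] at h1
    refine le_of_tendsto h1 (eventually_atTop.2 ⟨N, fun n hn => ?_⟩)
    have a1 := hN n hn n hn
    have hC0 : 0 ≤ C := by
      by_contra hcon
      push Not at hcon
      have a2 := (hD o o).1.trans (hD o o).2
      have a3 : C * Real.exp (-ε * gprod o o o) < 0 := mul_neg_of_neg_of_pos hcon (Real.exp_pos _)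
      have a4 : 0 < c * Real.exp (-ε * gprod o o o) := by positivity
      linarith
    calc D (u.seq n) (v.seq n) ≤ C * Real.exp (-ε * gprod o (u.seq n) (v.seq n)) := (hD _ _).2
      _ ≤ C * Real.exp (-ε * T) := by
          refine mul_le_mul_of_nonneg_left (Real.exp_le_exp.2 ?_) hC0
          nlinarith
      _ ≤ max C c⁻¹ * Real.exp (-ε * T) :=
          mul_le_mul_of_nonneg_right (le_max_left _ _) (Real.exp_pos _).le
  · intro z w _ T hT
    exact hmain z w T hT

end Pool.Agent.Y454.CD
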