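import Mathlib
import Pool.Agent.Y454.CD.Tools

set_option autoImplicit false

/-! # Part E, first half: sums along chains, mass distribution -/

namespace Pool.Agent.Y454.CD

open Filter MeasureTheory Pool.Agent.Helper376.LC
open scoped ENNReal NNReal Topology

theorem reach_erase {G X : Type} [Group G] [MetricSpace X] [MulAction G X] [DecidableEq G] {o : X}
    {F : Finset G} {L : ℝ} {a b : G} (hab : b ≠ a) (v : G)
    (h : Relation.ReflTransGen (Step o F L) v b) :
    (v ≠ a ∧ Relation.ReflTransGen (Step o (F.erase a) L) v b) ∨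
    ∃ c, Step o F L a c ∧ c ≠ a ∧ Relation.ReflTransGen (Step o (F.erase a) L) c b := by
  induction h using Relation.ReflTransGen.head_induction_on with
  | refl => exact Or.inl ⟨hab, Relation.ReflTransGen.refl⟩
  | head h1 h2 ih =>
    rename_i v v'
    rcases ih with ⟨ih1, ih2⟩ | ih
    · by_cases hv : v = a
      · subst hv
        exact Or.inr ⟨v', h1, ih1, ih2⟩
      · exact Or.inl ⟨hv, Relation.ReflTransGen.head
          ⟨Finset.mem_erase.2 ⟨hv, h1.1⟩, Finset.mem_erase.2 ⟨ih1, h1.2.1⟩, h1.2.2⟩ ih2⟩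
    · exact Or.inr ih

theorem chain_sum {G X Y : Type} [Group G] [MetricSpace X] [MulAction G X] [MetricSpace Y]
    {o : X} {L : ℝ} (y : G → Y) (r : G → ℝ) (hr : ∀ s, 0 ≤ r s) :
    ∀ (k : ℕ) (F : Finset G), F.card = k →
      (∀ s s', Step o F L s s' → dist (y s) (y s') ≤ r s) → ∀ a b,
      Relation.ReflTransGen (Step o F L) a b → dist (y a) (y b) ≤ ∑ s ∈ F, r s := by
  classical
  intro k
  induction k with
  | zero =>
    intro F hF _ a b hab
    rcases Relation.ReflTransGen.cases_head hab with h | ⟨c, h, _⟩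
    · rw [h, dist_self]
      exact Finset.sum_nonneg fun s _ => hr s
    · have := h.1
      rw [Finset.card_eq_zero] at hF
      rw [hF] at this
      simp at this
  | succ k ih =>
    intro F hF hstep a b hab
    by_cases hne : b = a
    · rw [hne, dist_self]
      exact Finset.sum_nonneg fun s _ => hr s
    · rcases reach_erase hne a hab with h | ⟨c, h1, h2, h3⟩
      · exact absurd rfl h.1
      · have haF : a ∈ F := h1.1
        have hcard : (F.erase a).card = k := by
          rw [Finset.card_erase_of_mem haF, hF]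
          rfl
        have h4 := ih (F.erase a) hcard (fun s s' hs => hstep s s'
          ⟨Finset.mem_of_mem_erase hs.1, Finset.mem_of_mem_erase hs.2.1, hs.2.2⟩) c b h3
        have h5 := hstep a c h1
        rw [← Finset.add_sum_erase F r haF]
        exact (dist_triangle _ (y c) _).trans (add_le_add h5 h4)

/-- Mass distribution principle for Ahlfors regular spaces. -/
theorem AhlforsRegular.le_dimH {Y : Type} [MetricSpace Y] [CompactSpace Y] [Infinite Y]
    [MeasurableSpace Y] [BorelSpace Y] {Q C : ℝ} {μ : Measure Y} (hQ : 0 ≤ Q) (hC : 1 ≤ C)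
    (h : ∀ (y : Y) (r : ℝ), 0 < r → r ≤ Metric.diam (Set.univ : Set Y) →
      ENNReal.ofReal (C⁻¹ * r ^ Q) ≤ μ (Metric.ball y r) ∧
      μ (Metric.ball y r) ≤ ENNReal.ofReal (C * r ^ Q)) :
    ENNReal.ofReal Q ≤ dimH (Set.univ : Set Y) := by
  rcases hQ.eq_or_lt with hQ0 | hQ0
  · rw [← hQ0]; simp
  have hdiam : 0 < Metric.diam (Set.univ : Set Y) := by
    obtain ⟨a, b, hab⟩ := exists_pair_ne Y
    have h1 : dist a b ≤ Metric.diam (Set.univ : Set Y) :=
      Metric.dist_le_diam_of_mem isCompact_univ.isBounded (Set.mem_univ _) (Set.mem_univ _)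
    have h2 := dist_pos.2 hab
    linarith
  set d := Metric.diam (Set.univ : Set Y) with hd
  have hCpos : 0 < C := by linarith
  -- bound for arbitrary sets
  have hset : ∀ s : Set Y, Metric.ediam s ≤ ENNReal.ofReal (d / 2) →
      μ s ≤ ENNReal.ofReal (C * 2 ^ Q) * Metric.ediam s ^ Q := by
    intro s hs
    have hfin : Metric.ediam s ≠ ⊤ := ne_top_of_le_ne_top ENNReal.ofReal_ne_top hs
    rcases s.eq_empty_or_nonempty with he | ⟨y, hy⟩
    · rw [he]; simp
    · have hle : Metric.diam s ≤ d / 2 := by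
        unfold Metric.diam
        exact ENNReal.toReal_le_of_le_ofReal (by positivity) hs
      have hdiams : Metric.ediam s = ENNReal.ofReal (Metric.diam s) := by
        unfold Metric.diam
        rw [ENNReal.ofReal_toReal hfin]
      have hd0 : 0 ≤ Metric.diam s := Metric.diam_nonneg
      -- for each small positive excess
      have hbound : ∀ τ : ℝ, Metric.diam s < τ → τ ≤ d → μ s ≤ ENNReal.ofReal (C * τ ^ Q) := by
        intro τ h1 h2
        refine (measure_mono ?_).trans (h y τ (by linarith) h2).2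
        intro x hx
        rw [Metric.mem_ball]
        refine (Metric.dist_le_diam_of_mem ?_ hx hy).trans_lt h1
        exact Metric.isBounded_iff_ediam_ne_top.2 hfin
      by_cases hz : Metric.diam s = 0
      · have hlim : Tendsto (fun τ : ℝ => ENNReal.ofReal (C * τ ^ Q)) (𝓝[>] 0) (𝓝 0) := by
          have h1 : Tendsto (fun τ : ℝ => C * τ ^ Q) (𝓝[>] 0) (𝓝 (C * 0 ^ Q)) := by
            apply Tendsto.const_mul
            exact ((Real.continuous_rpow_const hQ0.le).tendsto 0).mono_left nhdsWithin_le_nhds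
          rw [Real.zero_rpow hQ0.ne', mul_zero] at h1
          have h2 := (ENNReal.continuous_ofReal.tendsto 0).comp h1
          rw [ENNReal.ofReal_zero] at h2
          exact h2
        have hmu : μ s ≤ 0 := by
          refine ge_of_tendsto hlim ?_
          have h3 : ∀ᶠ τ : ℝ in 𝓝[>] 0, τ ∈ Set.Ioc 0 d := Ioc_mem_nhdsGT hdiam
          filter_upwards [h3] with τ hτ
          exact hbound τ (by rw [hz]; exact hτ.1) hτ.2
        exact hmu.trans zero_le
      · have hpos : 0 < Metric.diam s := lt_of_le_of_ne hd0 (Ne.symm hz)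
        refine (hbound (2 * Metric.diam s) (by linarith) (by linarith)).trans ?_
        rw [hdiams, ENNReal.ofReal_rpow_of_pos hpos, ← ENNReal.ofReal_mul (by positivity)]
        apply ENNReal.ofReal_le_ofReal
        rw [Real.mul_rpow (by norm_num) hd0]
        apply le_of_eq
        ring
  set c : ℝ≥0∞ := ENNReal.ofReal (C * 2 ^ Q) with hc
  have hc0 : c ≠ 0 := by
    rw [hc]
    exact (ENNReal.ofReal_pos.2 (by positivity)).ne'
  have hct : c ≠ ⊤ := ENNReal.ofReal_ne_top
  have hle : c⁻¹ • μ ≤ Measure.hausdorffMeasure Q := by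
    refine Measure.le_hausdorffMeasure Q (c⁻¹ • μ) (ENNReal.ofReal (d / 2)) (by
      rw [ENNReal.ofReal_pos]; linarith) ?_
    intro s hs
    rw [Measure.smul_apply, smul_eq_mul]
    calc c⁻¹ * μ s ≤ c⁻¹ * (c * Metric.ediam s ^ Q) := by gcongr; exact hset s hs
      _ = Metric.ediam s ^ Q := by rw [← mul_assoc, ENNReal.inv_mul_cancel hc0 hct, one_mul]
  have hpos : Measure.hausdorffMeasure (Q.toNNReal : ℝ) (Set.univ : Set Y) ≠ 0 := by
    rw [Real.coe_toNNReal _ hQ]
    intro h0
    have h1 := hle (Set.univ : Set Y)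
    rw [h0, Measure.smul_apply, smul_eq_mul] at h1
    have h2 : c⁻¹ * μ Set.univ = 0 := le_antisymm h1 zero_le
    rw [mul_eq_zero] at h2
    rcases h2 with h2 | h2
    · exact hct (ENNReal.inv_eq_zero.1 h2)
    · obtain ⟨y⟩ : Nonempty Y := inferInstance
      have h3 := (h y d hdiam le_rfl).1
      have h4 : ENNReal.ofReal (C⁻¹ * d ^ Q) ≤ 0 := by
        rw [← h2]
        exact h3.trans (measure_mono (Set.subset_univ _))
      have h5 : 0 < ENNReal.ofReal (C⁻¹ * d ^ Q) := ENNReal.ofReal_pos.2 (by positivity)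
      exact absurd h4 (not_le.2 h5)
  have := le_dimH_of_hausdorffMeasure_ne_zero hpos
  rw [ENNReal.ofReal]
  exact this

end Pool.Agent.Y454.CD
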