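import Mathlib
import Pool.Agent.Y454.CD.PartE1

set_option autoImplicit false

/-! # Part E: weights from an Ahlfors regular metric in the conformal gauge -/

namespace Pool.Agent.Y454.CD

open Filter MeasureTheory Pool.Agent.Helper376.LC
open scoped ENNReal NNReal Topology

theorem sum_measure_le {Y ι : Type} [MeasurableSpace Y] (μ : Measure Y) (F : Finset ι)
    (U : ι → Set Y) (hU : ∀ i ∈ F, MeasurableSet (U i)) (M : ℕ)
    (hM : ∀ b : Y, ∀ F' ⊆ F, (∀ i ∈ F', b ∈ U i) → F'.card ≤ M) :
    ∑ i ∈ F, μ (U i) ≤ M * μ Set.univ := by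
  classical
  calc ∑ i ∈ F, μ (U i) = ∑ i ∈ F, ∫⁻ b, (U i).indicator 1 b ∂μ := by
        refine Finset.sum_congr rfl fun i hi => ?_
        rw [lintegral_indicator_one (hU i hi)]
    _ = ∫⁻ b, ∑ i ∈ F, (U i).indicator 1 b ∂μ := by
        rw [lintegral_finsetSum']
        intro i hi
        exact (measurable_one.indicator (hU i hi)).aemeasurable
    _ ≤ ∫⁻ _, (M : ℝ≥0∞) ∂μ := by
        refine lintegral_mono fun b => ?_
        show ∑ i ∈ F, (U i).indicator (1 : Y → ℝ≥0∞) b ≤ M
        have h1 : ∑ i ∈ F, (U i).indicator (1 : Y → ℝ≥0∞) b =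
            ((F.filter (fun i => b ∈ U i)).card : ℝ≥0∞) := by
          rw [Finset.card_filter]
          push_cast
          refine Finset.sum_congr rfl fun i _ => ?_
          by_cases hb : b ∈ U i
          · simp [hb]
          · simp [hb]
        rw [h1]
        exact_mod_cast hM b _ (Finset.filter_subset _ _) (fun i hi => (Finset.mem_filter.1 hi).2)
    _ = M * μ Set.univ := by rw [lintegral_const]

theorem measure_univ_lt_top {Y : Type} [MetricSpace Y] [CompactSpace Y] [MeasurableSpace Y]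
    [Infinite Y] {Q C : ℝ} {μ : Measure Y}
    (h : ∀ (y : Y) (r : ℝ), 0 < r → r ≤ Metric.diam (Set.univ : Set Y) →
      ENNReal.ofReal (C⁻¹ * r ^ Q) ≤ μ (Metric.ball y r) ∧
      μ (Metric.ball y r) ≤ ENNReal.ofReal (C * r ^ Q)) : μ Set.univ < ⊤ := by
  have hdiam : 0 < Metric.diam (Set.univ : Set Y) := by
    obtain ⟨a, b, hab⟩ := exists_pair_ne Y
    have h1 : dist a b ≤ Metric.diam (Set.univ : Set Y) :=
      Metric.dist_le_diam_of_mem isCompact_univ.isBounded (Set.mem_univ _) (Set.mem_univ _)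
    have h2 := dist_pos.2 hab
    linarith
  set d := Metric.diam (Set.univ : Set Y) with hd
  obtain ⟨t, -, ht, hcov⟩ := (isCompact_univ (X := Y)).finite_cover_balls hdiam
  calc μ Set.univ ≤ μ (⋃ x ∈ t, Metric.ball x d) := measure_mono hcov
    _ < ⊤ := by
        refine measure_biUnion_lt_top ht fun x _ => ?_
        exact (h x d hdiam le_rfl).2.trans_lt ENNReal.ofReal_lt_top

theorem stE : StE := by
  classical
  intro G X Y Z _ _ _ _ _ _ e o δ R h hinf hvis hAR hQS p hp C₂ C₃ K η hη
  have hδ := h.nonneg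
  have hR := h.nonneg'
  have hX : GromovHyperbolic X := ⟨δ, h.hyp⟩
  obtain ⟨ε, Cv, hε, hCv, v1, v2⟩ := hvis.working hX o
  obtain ⟨f, ηq, hf⟩ := hQS
  obtain ⟨hcY, Q, CA, μ, hQ, hCA, hμ⟩ := hAR
  letI : MeasurableSpace Y := borel Y
  haveI : BorelSpace Y := ⟨rfl⟩
  haveI : Infinite Z := Infinite.of_injective e.symm e.symm.injective
  haveI : Infinite Y := Infinite.of_injective f.symm f.symm.injective
  haveI : CompactSpace Z := f.compactSpace
  have hCv0 : 0 < Cv := by linarith
  have hCA0 : 0 < CA := by linarith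
  have hQp : Q < p := by
    have h1 := AhlforsRegular.le_dimH hQ hCA hμ
    have h2 := h1.trans_lt hp
    rw [ENNReal.ofReal_lt_iff_lt_toReal hQ (by simp)] at h2
    simpa using h2
  have hμtop := measure_univ_lt_top hμ
  obtain ⟨C₅, hC₅0, hC₅⟩ := h.visibility (exists_pair_ne (Boundary X))
  choose ζ hζ using hC₅
  set z : G → Z := fun s => e.symm (ζ s) with hz
  set y : G → Y := fun s => f.symm (z s) with hy
  have hez : ∀ s, e (z s) = ζ s := fun s => e.apply_symm_apply _
  have hfy : ∀ s, f (y s) = z s := fun s => f.apply_symm_apply _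
  set C₆ : ℝ := C₅ + 2 * |C₂| with hC₆
  have hC₂' := abs_nonneg C₂
  set S : G → Set Y := fun s => {b | PB o (dist o (s • o) - C₆) (s • o) (e (f b))} with hS
  set r : G → ℝ := fun s => Metric.diam (S s) with hr
  have hr0 : ∀ s, 0 ≤ r s := fun s => Metric.diam_nonneg
  have hbdd : ∀ s : Set Y, Bornology.IsBounded s := fun s =>
    isCompact_univ.isBounded.subset (Set.subset_univ s)
  have hyS : ∀ s, y s ∈ S s := by
    intro s
    show PB o _ _ (e (f (y s)))
    rw [hfy, hez]
    exact (hζ s).mono (by linarith)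
  have hyS' : ∀ (s s' : G), dist (s • o) (s' • o) ≤ C₂ → y s' ∈ S s := by
    intro s s' hss
    show PB o _ _ (e (f (y s')))
    rw [hfy, hez]
    have a1 := dist_triangle o (s' • o) (s • o)
    rw [dist_comm (s' • o)] at a1
    have a2 := le_abs_self C₂
    exact (PB.near_point (hζ s') (y := s • o) (D := C₂) (by rw [dist_comm]; exact hss)).mono
      (by linarith)
  -- distance of points in the shadows
  have hdiamS : ∀ s, ∀ b ∈ S s, ∀ b' ∈ S s,
      dist (f b) (f b') ≤ Cv * Real.exp (-ε * (dist o (s • o) - C₆ - δ)) := by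
    intro s b hb b' hb'
    exact v1 _ _ _ (Near.of_PB h.hyp hb hb')
  -- separation of the end points
  set T₀ : ℝ := |C₃| + 4 * δ + 1 with hT₀
  obtain ⟨c₃, hc₃, huc⟩ := Metric.uniformContinuous_iff.1
    (CompactSpace.uniformContinuous_of_continuous f.continuous) (Cv⁻¹ * Real.exp (-ε * T₀))
    (by positivity)
  set A : ℝ := |K| / c₃ with hA
  have hA0 : 0 ≤ A := by positivity
  -- multiplicity constants
  obtain ⟨C₈, hC₈, hC₈'⟩ : ∃ C₈ : ℝ, R + C₅ ≤ C₈ ∧
      2 * (ηq 1 : ℝ) * Cv ^ 2 * Real.exp (ε * (R + C₆ + δ)) < Real.exp (ε * C₈) := by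
    have h1 : Tendsto (fun x : ℝ => Real.exp (ε * x)) atTop atTop :=
      Real.tendsto_exp_atTop.comp (tendsto_id.const_mul_atTop hε)
    obtain ⟨x, hx⟩ := ((h1.eventually (eventually_gt_atTop
      (2 * (ηq 1 : ℝ) * Cv ^ 2 * Real.exp (ε * (R + C₆ + δ))))).and
      (eventually_ge_atTop (R + C₅))).exists
    exact ⟨x, hx.2, hx.1⟩
  set D₉ : ℝ := 2 * R + 2 * C₈ + 8 * δ with hD₉
  set M : ℕ := (h.fin D₉).toFinset.card with hM
  set C₇ : ℝ := (M * μ Set.univ).toReal * CA * 3 ^ Q with hC₇
  have hC₇0 : 0 ≤ C₇ := by positivity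
  have hMμ : (M * μ Set.univ : ℝ≥0∞) ≠ ⊤ := ENNReal.mul_ne_top (by simp) hμtop.ne
  -- the bound of the sum of the `Q`-th powers
  have hsumQ : ∀ (n : ℝ) (F : Finset G), (∀ s ∈ F, |dist o (s • o) - n| ≤ R) →
      (∀ s ∈ F, 0 < r s) → ∑ s ∈ F, r s ^ Q ≤ C₇ := by
    intro n F hF hpos
    set Dn : ℝ := (ηq 1 : ℝ) * (Cv * Real.exp (-ε * (n - R - C₆ - δ))) with hDn
    set U : G → Set Y := fun s => {b | dist (z s) (f b) ≤ Dn} with hU
    have hUm : ∀ s ∈ F, MeasurableSet (U s) := by
      intro s _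
      apply IsClosed.measurableSet
      exact isClosed_le (by fun_prop) continuous_const
    have hUμ : ∀ s ∈ F, ENNReal.ofReal (CA⁻¹ * (r s / 3) ^ Q) ≤ μ (U s) := by
      intro s hs
      have hrs := hpos s hs
      have hrd : r s ≤ Metric.diam (Set.univ : Set Y) :=
        Metric.diam_mono (Set.subset_univ _) (hbdd _)
      refine (hμ (y s) (r s / 3) (by positivity) (by linarith)).1.trans (measure_mono ?_)
      -- a point of the shadow far from `y s`
      obtain ⟨a, ha, hya⟩ : ∃ a ∈ S s, r s / 3 ≤ dist (y s) a := by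
        by_contra hcon
        push Not at hcon
        have h1 : Metric.diam (S s) ≤ 2 * (r s / 3) := by
          apply Metric.diam_le_of_forall_dist_le (by positivity)
          intro b hb b' hb'
          have a1 := hcon b hb
          have a2 := hcon b' hb'
          have a3 := dist_triangle_left b b' (y s)
          linarith
        have h2 : r s = Metric.diam (S s) := rfl
        linarith
      intro b hb
      rw [Metric.mem_ball] at hb
      show dist (z s) (f b) ≤ Dn
      have h1 : nndist (y s) b ≤ 1 * nndist (y s) a := by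
        rw [one_mul, ← NNReal.coe_le_coe, coe_nndist, coe_nndist, dist_comm (y s) b]
        linarith
      have h2 := hf (y s) b a 1 h1
      rw [hfy, ← NNReal.coe_le_coe, NNReal.coe_mul, coe_nndist, coe_nndist] at h2
      refine h2.trans ?_
      rw [hDn]
      refine mul_le_mul_of_nonneg_left ?_ (NNReal.coe_nonneg _)
      have h3 := hdiamS s (y s) (hyS s) a ha
      rw [hfy] at h3
      refine h3.trans (mul_le_mul_of_nonneg_left ?_ hCv0.le)
      apply Real.exp_le_exp.2
      have h4 := abs_le.1 (hF s hs)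
      nlinarith
    have hmult : ∀ b : Y, ∀ F' ⊆ F, (∀ s ∈ F', b ∈ U s) → F'.card ≤ M := by
      intro b F' hF' hb
      rcases F'.eq_empty_or_nonempty with he | ⟨s₀, hs₀⟩
      · rw [he]; simp
      · rw [hM]
        refine Finset.card_le_card_of_injOn (fun s => s₀⁻¹ * s) ?_ ?_
        · intro s hs
          have hs := Finset.mem_coe.1 hs
          simp only [Set.Finite.coe_toFinset, Set.mem_ofPred_eq]
          rw [← h.dist_mul s₀, mul_inv_cancel_left]
          have f1 := abs_le.1 (hF s (hF' hs))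
          have f2 := abs_le.1 (hF s₀ (hF' hs₀))
          have f3 : dist (z s₀) (f b) ≤ Dn := hb s₀ hs₀
          have f4 : dist (z s) (f b) ≤ Dn := hb s hs
          have f5 : dist (z s₀) (z s) ≤ 2 * Dn := by
            have := dist_triangle_right (z s₀) (z s) (f b)
            linarith
          have f6 : dist (z s₀) (z s) < Cv⁻¹ * Real.exp (-ε * (n - C₈)) := by
            refine f5.trans_lt ?_
            have e1 : Real.exp (-ε * (n - C₈)) = Real.exp (-ε * n) * Real.exp (ε * C₈) := by
              rw [← Real.exp_add]; ring_nf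
            have e2 : Real.exp (-ε * (n - R - C₆ - δ)) =
                Real.exp (-ε * n) * Real.exp (ε * (R + C₆ + δ)) := by
              rw [← Real.exp_add]; ring_nf
            rw [hDn, e1, e2]
            have e3 : 0 < Real.exp (-ε * n) := Real.exp_pos _
            calc 2 * ((ηq 1 : ℝ) * (Cv * (Real.exp (-ε * n) * Real.exp (ε * (R + C₆ + δ)))))
                = Cv⁻¹ * (Real.exp (-ε * n) *
                  (2 * (ηq 1 : ℝ) * Cv ^ 2 * Real.exp (ε * (R + C₆ + δ)))) := by
                  field_simp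
              _ < Cv⁻¹ * (Real.exp (-ε * n) * Real.exp (ε * C₈)) := by
                  apply mul_lt_mul_of_pos_left _ (by positivity)
                  exact mul_lt_mul_of_pos_left hC₈' e3
          have f7 := v2 _ _ _ f6
          rw [hez, hez] at f7
          have f8 := gprod_of_near hδ h.hyp (T := n - C₈) ((hζ s₀).mono (by linarith))
            ((hζ s).mono (by linarith)) f7
          rw [dist_eq_gprod o]
          linarith
        · intro s _ s' _ hss
          exact mul_left_cancel hss
    have h1 := sum_measure_le μ F U hUm M hmult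
    have h2 : ∑ s ∈ F, ENNReal.ofReal (CA⁻¹ * (r s / 3) ^ Q) ≤ M * μ Set.univ :=
      (Finset.sum_le_sum hUμ).trans h1
    rw [← ENNReal.ofReal_sum_of_nonneg (fun s _ => by have := hr0 s; positivity)] at h2
    have h3 := ENNReal.toReal_mono hMμ h2
    rw [ENNReal.toReal_ofReal (Finset.sum_nonneg fun s _ => by have := hr0 s; positivity)] at h3
    have h4 : ∑ s ∈ F, CA⁻¹ * (r s / 3) ^ Q = (CA * 3 ^ Q)⁻¹ * ∑ s ∈ F, r s ^ Q := by
      rw [Finset.mul_sum]
      refine Finset.sum_congr rfl fun s _ => ?_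
      rw [Real.div_rpow (hr0 s) (by norm_num)]
      field_simp
    rw [h4, inv_mul_le_iff₀ (by positivity)] at h3
    calc ∑ s ∈ F, r s ^ Q ≤ CA * 3 ^ Q * (M * μ Set.univ).toReal := h3
      _ = C₇ := by rw [hC₇]; ring
  -- choice of `τ`
  obtain ⟨τ, hτ0, hτ⟩ : ∃ τ : ℝ, 0 < τ ∧ A ^ (p : ℝ) * τ ^ ((p : ℝ) - Q) * C₇ ≤ η := by
    have h1 : Tendsto (fun τ : ℝ => A ^ (p : ℝ) * τ ^ ((p : ℝ) - Q) * C₇) (𝓝[>] 0)
        (𝓝 (A ^ (p : ℝ) * 0 ^ ((p : ℝ) - Q) * C₇)) := by
      apply Tendsto.mul_const
      apply Tendsto.const_mul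
      exact ((Real.continuous_rpow_const (by linarith)).tendsto 0).mono_left nhdsWithin_le_nhds
    rw [Real.zero_rpow (by linarith), mul_zero, zero_mul] at h1
    have h2 := (h1.eventually (eventually_lt_nhds hη)).and self_mem_nhdsWithin
    obtain ⟨τ, h3, h4⟩ := h2.exists
    exact ⟨τ, h4, h3.le⟩
  obtain ⟨τ', hτ', huc'⟩ := Metric.uniformContinuous_iff.1
    (CompactSpace.uniformContinuous_of_continuous f.symm.continuous) τ hτ0
  obtain ⟨N₂, hN₂⟩ : ∃ N₂ : ℝ, ∀ n ≥ N₂, Cv * Real.exp (-ε * (n - R - C₆ - δ)) < τ' := by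
    have h1 : Tendsto (fun n : ℝ => Cv * Real.exp (-ε * (n - R - C₆ - δ))) atTop (𝓝 (Cv * 0)) := by
      apply Tendsto.const_mul
      apply Real.tendsto_exp_atBot.comp
      have h2 : Tendsto (fun n : ℝ => n - R - C₆ - δ) atTop atTop := by
        simp only [sub_eq_add_neg]
        exact tendsto_atTop_add_const_right _ _
          (tendsto_atTop_add_const_right _ _ (tendsto_atTop_add_const_right _ _ tendsto_id))
      exact h2.const_mul_atTop_of_neg (by linarith)
    rw [mul_zero] at h1
    obtain ⟨N₂, hN₂⟩ := eventually_atTop.1 (h1.eventually (eventually_lt_nhds hτ'))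
    exact ⟨N₂, hN₂⟩
  refine ⟨max N₂ (T₀ + R + C₅), fun n hn => ⟨fun s => A * r s, fun s => ?_, ?_, ?_⟩⟩
  · have := hr0 s
    positivity
  · -- the crossing property
    intro F a b hF ha hab hgab
    have hnT : T₀ + R + C₅ ≤ n := (le_max_right _ _).trans hn
    have hbF : b ∈ F := by
      rcases Relation.ReflTransGen.cases_tail hab with h1 | ⟨c, _, h1⟩
      · rw [h1]; exact ha
      · exact h1.2.1
    have h1 := chain_sum (o := o) y r hr0 F.card F rfl (L := C₂) (fun s s' hs => by
      exact Metric.dist_le_diam_of_mem (hbdd _) (hyS s) (hyS' s s' hs.2.2)) a b hab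
    have h2 : c₃ ≤ dist (y a) (y b) := by
      by_contra hcon
      push Not at hcon
      have h3 := huc hcon
      rw [hfy, hfy] at h3
      have h4 := v2 _ _ _ h3
      rw [hez, hez] at h4
      have h5 := abs_le.1 (hF a ha)
      have h6 := abs_le.1 (hF b hbF)
      have h7 := gprod_of_near hδ h.hyp (T := T₀) ((hζ a).mono (by linarith))
        ((hζ b).mono (by linarith)) h4
      have h8 := le_abs_self C₃
      linarith
    rw [← Finset.mul_sum]
    calc K ≤ |K| := le_abs_self K
      _ = A * c₃ := by rw [hA]; field_simp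
      _ ≤ A * ∑ s ∈ F, r s := mul_le_mul_of_nonneg_left (h2.trans h1) hA0
  · -- the sum of the `p`-th powers
    intro F hF
    have hnN : N₂ ≤ n := (le_max_left _ _).trans hn
    have hrτ : ∀ s ∈ F, r s ≤ τ := by
      intro s hs
      apply Metric.diam_le_of_forall_dist_le hτ0.le
      intro b hb b' hb'
      have h1 := hdiamS s b hb b' hb'
      have h2 : dist (f b) (f b') < τ' := by
        refine h1.trans_lt (lt_of_le_of_lt ?_ (hN₂ n hnN))
        refine mul_le_mul_of_nonneg_left (Real.exp_le_exp.2 ?_) hCv0.le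
        have h4 := abs_le.1 (hF s hs)
        nlinarith
      have h3 := huc' h2
      rw [f.symm_apply_apply, f.symm_apply_apply] at h3
      exact h3.le
    have hp0 : (p : ℝ) ≠ 0 := by
      intro h0
      rw [h0] at hQp
      linarith
    calc ∑ s ∈ F, (A * r s) ^ (p : ℝ)
        = ∑ s ∈ F, A ^ (p : ℝ) * r s ^ (p : ℝ) :=
          Finset.sum_congr rfl fun s _ => Real.mul_rpow hA0 (hr0 s)
      _ = A ^ (p : ℝ) * ∑ s ∈ F, r s ^ (p : ℝ) := by rw [Finset.mul_sum]
      _ = A ^ (p : ℝ) * ∑ s ∈ F.filter (fun s => 0 < r s), r s ^ (p : ℝ) := by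
          congr 1
          rw [Finset.sum_filter]
          refine Finset.sum_congr rfl fun s _ => ?_
          by_cases hs : 0 < r s
          · rw [if_pos hs]
          · have : r s = 0 := le_antisymm (not_lt.1 hs) (hr0 s)
            rw [if_neg hs, this, Real.zero_rpow hp0]
      _ ≤ A ^ (p : ℝ) * ∑ s ∈ F.filter (fun s => 0 < r s), τ ^ ((p : ℝ) - Q) * r s ^ Q := by
          refine mul_le_mul_of_nonneg_left (Finset.sum_le_sum fun s hs => ?_) (by positivity)
          obtain ⟨hs1, hs2⟩ := Finset.mem_filter.1 hs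
          have h1 : r s ^ (p : ℝ) = r s ^ ((p : ℝ) - Q) * r s ^ Q := by
            rw [← Real.rpow_add hs2]
            congr 1
            ring
          rw [h1]
          refine mul_le_mul_of_nonneg_right ?_ (by positivity)
          exact Real.rpow_le_rpow (hr0 s) (hrτ s hs1) (by linarith)
      _ = A ^ (p : ℝ) * τ ^ ((p : ℝ) - Q) * ∑ s ∈ F.filter (fun s => 0 < r s), r s ^ Q := by
          rw [← Finset.mul_sum]
          ring
      _ ≤ A ^ (p : ℝ) * τ ^ ((p : ℝ) - Q) * C₇ := by
          refine mul_le_mul_of_nonneg_left ?_ (by positivity)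
          exact hsumQ n _ (fun s hs => hF s (Finset.mem_filter.1 hs).1)
            (fun s hs => (Finset.mem_filter.1 hs).2)
      _ ≤ η := hτ

end Pool.Agent.Y454.CD
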