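import Mathlib
import Pool.Agent.Y454.CD.Tools

set_option autoImplicit false

/-! # Part F: the Hausdorff dimension of a visual metric is at most the critical exponent -/

namespace Pool.Agent.Y454.CD

open Filter MeasureTheory Pool.Agent.Helper376.LC
open scoped ENNReal NNReal Topology

theorem stF : StF := by
  classical
  intro G X Z _ _ _ _ _ e o δ R ε h hvis p hp hsum
  have hδ := h.nonneg
  have hR := h.nonneg'
  have hX : GromovHyperbolic X := ⟨δ, h.hyp⟩
  obtain ⟨hε, C, hC, v1, v2⟩ := hvis.working hX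
  have hC0 : 0 < C := by linarith
  have hp' : (0 : ℝ) < p := by exact_mod_cast hp
  letI : MeasurableSpace Z := borel Z
  haveI : BorelSpace Z := ⟨rfl⟩
  -- the shadows
  set S : G → Set Z := fun g => {z | PB o (dist o (g • o) - 2 * R - δ) (g • o) (e z)} with hS
  set K : ℝ := C * Real.exp (ε * (2 * R + 2 * δ)) with hK
  have hK0 : 0 < K := by positivity
  have hdiam : ∀ g, Metric.ediam (S g) ≤ ENNReal.ofReal (K * Real.exp (-ε * dist o (g • o))) := by
    intro g
    apply Metric.ediam_le
    intro z hz w hw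
    rw [edist_dist]
    apply ENNReal.ofReal_le_ofReal
    have h1 : Near o (dist o (g • o) - 2 * R - δ - δ) (e z) (e w) := Near.of_PB h.hyp hz hw
    refine (v1 z w _ h1).trans (le_of_eq ?_)
    rw [hK, mul_assoc, ← Real.exp_add]
    congr 2
    ring
  -- the annuli
  set An : ℕ → Finset G := fun n => (h.fin (n + R)).toFinset.filter
    (fun g => (n : ℝ) - R ≤ dist o (g • o)) with hAn
  have hmemAn : ∀ n g, g ∈ An n ↔ (n : ℝ) - R ≤ dist o (g • o) ∧ dist o (g • o) ≤ n + R := by
    intro n g
    rw [hAn]
    simp only [Finset.mem_filter, Set.Finite.mem_toFinset, Set.mem_ofPred_eq]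
    tauto
  have hcov : ∀ n : ℕ, (Set.univ : Set Z) ⊆ ⋃ i : An n, S i := by
    intro n z _
    obtain ⟨g, hg1, hg2⟩ := h.ray (e z) n (Nat.cast_nonneg n)
    have hg := abs_le.1 hg1
    rw [Set.mem_iUnion]
    refine ⟨⟨g, (hmemAn n g).2 ⟨by linarith, by linarith⟩⟩, ?_⟩
    exact hg2.mono (by simp only; linarith)
  -- the sums tend to zero
  have hsum2 : Tendsto (fun n : ℕ => ∑ g ∈ An n, Real.exp (-(p * ε) * dist o (g • o))) atTop
      (𝓝 0) := by
    rw [Metric.tendsto_atTop]
    intro τ hτ
    obtain ⟨s, hs⟩ := (summable_iff_vanishing_norm.1 hsum) τ hτ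
    obtain ⟨N, hN⟩ := exists_nat_gt (∑ g ∈ s, dist o (g • o) + R)
    refine ⟨N, fun n hn => ?_⟩
    rw [dist_zero_right]
    apply hs
    rw [Finset.disjoint_left]
    intro g hg hgs
    have h1 := ((hmemAn n g).1 hg).1
    have h2 : dist o (g • o) ≤ ∑ g ∈ s, dist o (g • o) :=
      Finset.single_le_sum (f := fun g => dist o (g • o)) (fun g _ => dist_nonneg) hgs
    have h3 : (N : ℝ) ≤ n := by exact_mod_cast hn
    linarith
  have hbound : Measure.hausdorffMeasure (p : ℝ) (Set.univ : Set Z) ≤ 0 := by
    have h1 := Measure.hausdorffMeasure_le_liminf_sum (ι := fun n => An n) (p : ℝ)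
      (Set.univ : Set Z) (l := atTop)
      (fun n : ℕ => ENNReal.ofReal (K * Real.exp (-ε * (n - R)))) ?_ (fun n i => S i) ?_ ?_
    · refine h1.trans ?_
      have h2 : Tendsto (fun n : ℕ => ENNReal.ofReal (K ^ (p : ℝ) *
          ∑ g ∈ An n, Real.exp (-(p * ε) * dist o (g • o)))) atTop (𝓝 0) := by
        have h4 := hsum2.const_mul (K ^ (p : ℝ))
        rw [mul_zero] at h4
        have h3 := (ENNReal.continuous_ofReal.tendsto 0).comp h4
        rw [ENNReal.ofReal_zero] at h3
        exact h3
      rw [← h2.liminf_eq]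
      refine liminf_le_liminf (Eventually.of_forall fun n => ?_) (by isBoundedDefault)
        (by isBoundedDefault)
      show ∑ i : An n, Metric.ediam (S i) ^ (p : ℝ) ≤ _
      rw [Finset.sum_coe_sort (An n) (fun g => Metric.ediam (S g) ^ (p : ℝ)), Finset.mul_sum,
        ENNReal.ofReal_sum_of_nonneg (fun g _ => by positivity)]
      refine Finset.sum_le_sum fun g _ => ?_
      calc Metric.ediam (S g) ^ (p : ℝ)
          ≤ ENNReal.ofReal (K * Real.exp (-ε * dist o (g • o))) ^ (p : ℝ) :=
            ENNReal.rpow_le_rpow (hdiam g) hp'.le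
        _ = ENNReal.ofReal ((K * Real.exp (-ε * dist o (g • o))) ^ (p : ℝ)) :=
            ENNReal.ofReal_rpow_of_nonneg (by positivity) hp'.le
        _ = ENNReal.ofReal (K ^ (p : ℝ) * Real.exp (-(p * ε) * dist o (g • o))) := by
            congr 1
            rw [Real.mul_rpow hK0.le (Real.exp_pos _).le, ← Real.exp_mul]
            congr 2
            ring
        _ ≤ _ := le_rfl
    · have h2 : Tendsto (fun n : ℕ => K * Real.exp (-ε * (n - R))) atTop (𝓝 (K * 0)) := by
        apply Tendsto.const_mul
        apply Real.tendsto_exp_atBot.comp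
        have h3 : Tendsto (fun n : ℕ => (n : ℝ) - R) atTop atTop :=
          tendsto_atTop_add_const_right _ _ tendsto_natCast_atTop_atTop
        exact h3.const_mul_atTop_of_neg (by linarith)
      rw [mul_zero] at h2
      have h3 := (ENNReal.continuous_ofReal.tendsto 0).comp h2
      rw [ENNReal.ofReal_zero] at h3
      exact h3
    · refine Eventually.of_forall fun n i => ?_
      refine (hdiam i).trans (ENNReal.ofReal_le_ofReal ?_)
      refine mul_le_mul_of_nonneg_left (Real.exp_le_exp.2 ?_) hK0.le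
      have := ((hmemAn n i).1 i.2).1
      nlinarith
    · exact Eventually.of_forall hcov
  apply dimH_le_of_hausdorffMeasure_ne_top
  exact ne_top_of_le_ne_top ENNReal.zero_ne_top hbound

end Pool.Agent.Y454.CD
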