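import Mathlib
import Pool.Agent.Y454.CD.Tools
import Pool.Agent.Helper376.LC.Guess

set_option autoImplicit false

/-! # Part A: guessing geodesics for geometric actions -/

namespace Pool.Agent.Y454.CD

open Filter MeasureTheory Pool.Agent.Helper376.LC
open scoped ENNReal NNReal Topology

theorem GeometricAction.cobounded {G X : Type} [Group G] [MetricSpace X] [MulAction G X]
    (h : GeometricAction G X) (o : X) :
    ∃ R : ℝ, 0 ≤ R ∧ (∀ x : X, ∃ g : G, dist x (g • o) ≤ R) ∧
      ∀ r : ℝ, {g : G | dist o (g • o) ≤ r}.Finite := by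
  obtain ⟨K, hK, hcov⟩ := h.cocompact
  obtain ⟨R, hR⟩ := hK.isBounded.subset_closedBall o
  refine ⟨max R 0, le_max_right _ _, ?_, ?_⟩
  · intro x
    obtain ⟨g, hg⟩ := hcov x
    refine ⟨g⁻¹, ?_⟩
    have h1 := hR hg
    rw [Metric.mem_closedBall] at h1
    rw [← h.isometric g, smul_inv_smul]
    exact h1.trans (le_max_left _ _)
  · intro r
    have := h.proper
    refine (h.discontinuous (Metric.closedBall o r) (isCompact_closedBall o r)).subset ?_
    intro g hg
    have hg' : dist o (g • o) ≤ r := hg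
    have hr : 0 ≤ r := dist_nonneg.trans hg'
    refine ⟨g • o, ⟨o, Metric.mem_closedBall_self hr, rfl⟩, ?_⟩
    rw [Metric.mem_closedBall, dist_comm]
    exact hg'

theorem GeometricAction.dist_smul_smul {G X : Type} [Group G] [MetricSpace X] [MulAction G X]
    (h : GeometricAction G X) (o : X) (x y : G) :
    dist (x • o) (y • o) = dist o ((x⁻¹ * y) • o) := by
  rw [← h.isometric x⁻¹, inv_smul_smul, mul_smul]

theorem exists_bound {G X : Type} [Group G] [MetricSpace X] [MulAction G X] (o : X) {F : Set G}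
    (hF : F.Finite) : ∃ b : ℝ, 0 ≤ b ∧ ∀ g ∈ F, dist o (g • o) ≤ b := by
  refine ⟨∑ g ∈ hF.toFinset, dist o (g • o), Finset.sum_nonneg fun _ _ => dist_nonneg, ?_⟩
  intro g hg
  exact Finset.single_le_sum (f := fun g => dist o (g • o)) (fun _ _ => dist_nonneg)
    (hF.mem_toFinset.2 hg)

theorem exists_geo_ceil {X : Type} [MetricSpace X] (hgeo : GeodesicSpace X) (x y : X) :
    ∃ p, Geo (fun x y : X => ⌈dist x y⌉₊) x y p := by
  obtain ⟨γ, h0, h1, hγ⟩ := hgeo x y
  set D := dist x y with hD
  set N := ⌈D⌉₊ with hN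
  have hD0 : 0 ≤ D := dist_nonneg
  have hDN : D ≤ N := Nat.le_ceil D
  refine ⟨fun i => γ (i * (D / N)), ?_, ?_, ?_⟩
  · simp [h0]
  · show γ ((N : ℝ) * (D / N)) = y
    rcases Nat.eq_zero_or_pos N with hz | hz
    · have : D = 0 := by
        have h2 : (N : ℝ) = 0 := by exact_mod_cast hz
        linarith
      rw [this] at h1 ⊢
      simpa using h1
    · have hz' : (N : ℝ) ≠ 0 := by positivity
      rw [mul_div_cancel₀ _ hz']
      exact h1
  · intro i j hij hj
    have hj' : j ≤ N := hj
    show ⌈dist (γ (i * (D / N))) (γ (j * (D / N)))⌉₊ = j - i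
    rcases Nat.eq_zero_or_pos N with hz | hz
    · have hj0 : j = 0 := by omega
      have hi0 : i = 0 := by omega
      subst hj0
      subst hi0
      simp
    · have hN' : (0 : ℝ) < N := by exact_mod_cast hz
      have hlt : (N : ℝ) - 1 < D := by
        have := Nat.ceil_lt_add_one hD0
        rw [← hN] at this
        linarith
      have hmem : ∀ k : ℕ, k ≤ N → (k : ℝ) * (D / N) ∈ Set.Icc 0 D := by
        intro k hk
        have hk' : (k : ℝ) ≤ N := by exact_mod_cast hk
        refine ⟨by positivity, ?_⟩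
        calc (k : ℝ) * (D / N) ≤ N * (D / N) := by gcongr
          _ = D := by field_simp
      rw [hγ _ (hmem i (hij.trans hj')) _ (hmem j hj')]
      have e1 : |(i : ℝ) * (D / N) - j * (D / N)| = ((j - i : ℕ) : ℝ) * (D / N) := by
        rw [← sub_mul, abs_mul, abs_of_nonneg (show 0 ≤ D / N by positivity), abs_sub_comm,
          Nat.cast_sub hij, abs_of_nonneg]
        rw [sub_nonneg]
        exact_mod_cast hij
      rw [e1]
      set m := j - i with hm
      have hmN : m ≤ N := by omega
      rcases Nat.eq_zero_or_pos m with hm0 | hm0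
      · rw [hm0]; simp
      · rw [Nat.ceil_eq_iff (by omega)]
        have hm' : (m : ℝ) ≤ N := by exact_mod_cast hmN
        have hmpos : (0 : ℝ) < m := by exact_mod_cast hm0
        constructor
        · rw [Nat.cast_sub (by omega : 1 ≤ m), Nat.cast_one, mul_div_assoc', lt_div_iff₀ hN']
          nlinarith
        · rw [mul_div_assoc', div_le_iff₀ hN']
          nlinarith

theorem stA : StA := by
  classical
  intro G X _ _ _ L h hL
  obtain ⟨F₃, hF₃, hthin⟩ := hL.thin
  obtain ⟨F₂, hF₂, hpath⟩ := hL.path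
  -- the main consequence, for each orbit
  have main : ∀ o : X, ∃ R : ℝ,
      (∀ p x y z : X, min (gprod p x z) (gprod p z y) - R ≤ gprod p x y) ∧
      (∀ x y, ∀ v ∈ L x y, dist (x • o) (v • o) + dist (v • o) (y • o) ≤
        dist (x • o) (y • o) + R) ∧
      (∀ g x y : G, ∃ v ∈ L x y, dist (g • o) (v • o) ≤ gprod (g • o) (x • o) (y • o) + R) := by
    intro o
    obtain ⟨R0, hR0, hcob, hfin⟩ := h.cobounded o
    choose γ hγ using hcob
    obtain ⟨b₃, hb₃, hb₃'⟩ := exists_bound o hF₃
    obtain ⟨b₂, hb₂, hb₂'⟩ := exists_bound o hF₂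
    obtain ⟨F₁, hF₁, hsmall₁⟩ := hL.small _ (hfin (2 * R0 + 1))
    obtain ⟨b₁, hb₁, hb₁'⟩ := exists_bound o hF₁
    obtain ⟨F₄, hF₄, hsmall₄⟩ := hL.small _ (hfin R0)
    obtain ⟨b₄, hb₄, hb₄'⟩ := exists_bound o hF₄
    have dthin : ∀ x y z, ∀ u ∈ L x y, ∃ v ∈ L x z ∪ L z y, dist (u • o) (v • o) ≤ b₃ := by
      intro x y z u hu
      obtain ⟨v, hv, huv⟩ := hthin x y z u hu
      exact ⟨v, hv, by rw [h.dist_smul_smul]; exact hb₃' _ huv⟩
    have hright : ∀ x y, y ∈ L x y := fun x y => by rw [hL.symm]; exact hL.left y x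
    set LX : X → X → Set X := fun x y => {x, y} ∪ (fun v : G => v • o) '' L (γ x) (γ y) with hLX
    obtain ⟨C, hC⟩ := exists_nat_ge (R0 + b₁ + b₂ + b₃ + b₄ + 1)
    have hle : ∀ x y : X, dist x y ≤ (⌈dist x y⌉₊ : ℝ) := fun x y => Nat.le_ceil _
    have hle' : ∀ x y : X, (⌈dist x y⌉₊ : ℝ) ≤ dist x y + 1 := fun x y =>
      (Nat.ceil_lt_add_one dist_nonneg).le
    have hbd : ∀ (x y : X) (k : ℕ), dist x y ≤ k → ⌈dist x y⌉₊ ≤ k := fun x y k hk =>
      Nat.ceil_le.2 hk
    obtain ⟨R, hR1, hR2⟩ := abstract_guess (V := X) (d := fun x y => ⌈dist x y⌉₊)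
      (fun x => by simp)
      (fun x y z => by
        show ⌈dist x z⌉₊ ≤ ⌈dist x y⌉₊ + ⌈dist y z⌉₊
        refine (Nat.ceil_mono (dist_triangle x y z)).trans (Nat.ceil_add_le _ _))
      (fun x y => by
        show ⌈dist x y⌉₊ = ⌈dist y x⌉₊
        rw [dist_comm])
      (exists_geo_ceil h.geodesic) LX C (by
        have : (1 : ℝ) ≤ C := by linarith
        exact_mod_cast this)
      (fun x y => Or.inl (Or.inl rfl))
      (by
        intro x y hxy u hu
        apply hbd
        have hxy' : dist x y ≤ 1 := by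
          have := hle x y
          have h2 : (⌈dist x y⌉₊ : ℝ) ≤ 1 := by exact_mod_cast hxy
          linarith
        rcases hu with (hu | hu) | ⟨v, hv, hu⟩
        · rw [hu, dist_self]; positivity
        · rw [hu]; linarith
        · have h1 : (γ x)⁻¹ * γ y ∈ {g : G | dist o (g • o) ≤ 2 * R0 + 1} := by
            show dist o _ ≤ _
            rw [← h.dist_smul_smul]
            have a1 := dist_triangle4 (γ x • o) x y (γ y • o)
            have a2 := hγ x
            have a3 := hγ y
            rw [dist_comm] at a2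
            linarith
          have h2 := hb₁' _ (hsmall₁ _ _ h1 v hv)
          rw [← h.dist_smul_smul] at h2
          have a1 := dist_triangle x (γ x • o) (v • o)
          have a2 := hγ x
          have hu' : u = v • o := hu.symm
          rw [hu']
          linarith)
      (by
        intro x y
        have step : ∀ a, Relation.ReflTransGen
            (fun a b => a ∈ L (γ x) (γ y) ∧ b ∈ L (γ x) (γ y) ∧ a⁻¹ * b ∈ F₂) (γ x) a →
            Relation.ReflTransGen (fun a b => a ∈ LX x y ∧ b ∈ LX x y ∧ ⌈dist a b⌉₊ ≤ C)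
              (γ x • o) (a • o) := by
          intro a ha
          induction ha with
          | refl => exact Relation.ReflTransGen.refl
          | tail _ h2 ih =>
            refine ih.tail ⟨Or.inr ⟨_, h2.1, rfl⟩, Or.inr ⟨_, h2.2.1, rfl⟩, hbd _ _ _ ?_⟩
            rw [h.dist_smul_smul]
            have := hb₂' _ h2.2.2
            linarith
        have s1 : Relation.ReflTransGen
            (fun a b => a ∈ LX x y ∧ b ∈ LX x y ∧ ⌈dist a b⌉₊ ≤ C) x (γ x • o) := by
          refine Relation.ReflTransGen.single ⟨Or.inl (Or.inl rfl),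
            Or.inr ⟨_, hL.left _ _, rfl⟩, hbd _ _ _ ?_⟩
          have := hγ x
          linarith
        refine (s1.trans (step _ (hpath (γ x) (γ y)))).tail
          ⟨Or.inr ⟨_, hright _ _, rfl⟩, Or.inl (Or.inr rfl), hbd _ _ _ ?_⟩
        have := hγ y
        rw [dist_comm]
        linarith)
      (by
        intro x y z u hu
        rcases hu with (hu | hu) | ⟨v, hv, hu⟩
        · exact ⟨x, Or.inl (Or.inl (Or.inl rfl)), by
            apply hbd
            rw [hu, dist_self]; positivity⟩
        · refine ⟨y, Or.inr (Or.inl (Or.inr rfl)), by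
            apply hbd
            have hu' : u = y := hu
            rw [hu', dist_self]; positivity⟩
        · obtain ⟨v', hv', hvv⟩ := dthin _ _ (γ z) v hv
          have hu' : u = v • o := hu.symm
          rcases hv' with hv' | hv'
          · exact ⟨v' • o, Or.inl (Or.inr ⟨v', hv', rfl⟩), by
              apply hbd
              rw [hu']
              linarith⟩
          · exact ⟨v' • o, Or.inr (Or.inr ⟨v', hv', rfl⟩), by
              apply hbd
              rw [hu']
              linarith⟩)
    -- comparison of `L x y` and `L x' y'`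
    set D : ℝ := 2 * b₃ + b₄ + R0 with hD
    have hcomp : ∀ x y x' y' : G, dist (x • o) (x' • o) ≤ R0 → dist (y • o) (y' • o) ≤ R0 →
        ∀ v ∈ L x y, ∃ v' ∈ L x' y', dist (v • o) (v' • o) ≤ D := by
      intro x y x' y' hx hy v hv
      have hx' : x⁻¹ * x' ∈ {g : G | dist o (g • o) ≤ R0} := by
        show dist o _ ≤ _
        rw [← h.dist_smul_smul]; exact hx
      have hy' : y⁻¹ * y' ∈ {g : G | dist o (g • o) ≤ R0} := by
        show dist o _ ≤ _
        rw [← h.dist_smul_smul]; exact hy
      obtain ⟨v₁, hv₁, hd₁⟩ := dthin x y x' v hv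
      rcases hv₁ with hv₁ | hv₁
      · have h2 := hb₄' _ (hsmall₄ _ _ hx' v₁ hv₁)
        rw [← h.dist_smul_smul] at h2
        refine ⟨x', hL.left _ _, ?_⟩
        have a1 := dist_triangle4 (v • o) (v₁ • o) (x • o) (x' • o)
        rw [dist_comm (v₁ • o)] at a1
        linarith
      · obtain ⟨v₂, hv₂, hd₂⟩ := dthin x' y y' v₁ hv₁
        rcases hv₂ with hv₂ | hv₂
        · refine ⟨v₂, hv₂, ?_⟩
          have a1 := dist_triangle (v • o) (v₁ • o) (v₂ • o)
          linarith
        · rw [hL.symm] at hv₂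
          have h2 := hb₄' _ (hsmall₄ _ _ hy' v₂ hv₂)
          rw [← h.dist_smul_smul] at h2
          refine ⟨y', hright _ _, ?_⟩
          have a0 := dist_triangle (v • o) (v₁ • o) (v₂ • o)
          have a1 := dist_triangle4 (v • o) (v₂ • o) (y • o) (y' • o)
          rw [dist_comm (v₂ • o)] at a1
          linarith
    have hR0' : (0 : ℝ) ≤ R := Nat.cast_nonneg R
    have hkey : ∀ p x y : X, ∃ w : X, (⌈dist p w⌉₊ : ℝ) ≤ gprod p x y + R + 1 ∧
        (∃ v ∈ LX x y, dist w v ≤ R) ∧
        ∀ z, ∃ s, (gprod p x z ≤ dist p s + 1 ∨ gprod p z y ≤ dist p s + 1) ∧ dist w s ≤ R := by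
      intro p x y
      obtain ⟨w, hw1, hw2, ⟨v, hv, hwv⟩, hw4⟩ := hR2 p x y
      refine ⟨w, ?_, ⟨v, hv, ?_⟩, ?_⟩
      · have e1 : (2 * (⌈dist p w⌉₊ : ℝ) + ⌈dist x y⌉₊) ≤ ⌈dist x p⌉₊ + ⌈dist y p⌉₊ + R := by
          exact_mod_cast hw2
        have e2 := hle x y
        have e3 := hle' x p
        have e4 := hle' y p
        unfold gprod
        linarith
      · have e1 := hle w v
        have e2 : (⌈dist w v⌉₊ : ℝ) ≤ R := by exact_mod_cast hwv
        linarith
      · intro z
        obtain ⟨s, hs, hws⟩ := hw4 z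
        refine ⟨s, ?_, ?_⟩
        · rcases hs with hs | hs
          · left
            have e1 : ((⌈dist x s⌉₊ : ℝ) + ⌈dist s z⌉₊) = ⌈dist x z⌉₊ := by exact_mod_cast hs
            have e2 := hle x s
            have e3 := hle s z
            have e4 := hle' x z
            have e5 := dist_triangle x s p
            have e6 := dist_triangle z s p
            rw [dist_comm z s] at e6
            rw [dist_comm s p] at e5 e6
            unfold gprod
            linarith
          · right
            have e1 : ((⌈dist z s⌉₊ : ℝ) + ⌈dist s y⌉₊) = ⌈dist z y⌉₊ := by exact_mod_cast hs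
            have e2 := hle z s
            have e3 := hle s y
            have e4 := hle' z y
            have e5 := dist_triangle z s p
            have e6 := dist_triangle y s p
            rw [dist_comm y s] at e6
            rw [dist_comm s p] at e5 e6
            unfold gprod
            linarith
        · have e1 := hle w s
          have e2 : (⌈dist w s⌉₊ : ℝ) ≤ R := by exact_mod_cast hws
          linarith
    refine ⟨2 * D + 2 * R + 2, ?_, ?_, ?_⟩
    · intro p x y z
      obtain ⟨w, hw1, -, hw3⟩ := hkey p x y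
      obtain ⟨s, hs, hws⟩ := hw3 z
      have e1 := hle p w
      have e2 := dist_triangle p w s
      have hD0 : 0 ≤ D := by positivity
      rcases hs with hs | hs
      · have := min_le_left (gprod p x z) (gprod p z y)
        linarith
      · have := min_le_right (gprod p x z) (gprod p z y)
        linarith
    · intro x y v hv
      obtain ⟨v', hv', hvv⟩ := hcomp x y (γ (x • o)) (γ (y • o)) (hγ _) (hγ _) v hv
      have h1 := hR1 (x • o) (y • o) (v' • o) (Or.inr ⟨v', hv', rfl⟩)
      have e1 : ((⌈dist (x • o) (v' • o)⌉₊ : ℝ) + ⌈dist (v' • o) (y • o)⌉₊) ≤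
        ⌈dist (x • o) (y • o)⌉₊ + R := by exact_mod_cast h1
      have e2 := hle (x • o) (v' • o)
      have e3 := hle (v' • o) (y • o)
      have e4 := hle' (x • o) (y • o)
      have e5 := dist_triangle (x • o) (v' • o) (v • o)
      have e6 := dist_triangle (v • o) (v' • o) (y • o)
      rw [dist_comm (v' • o) (v • o)] at e5
      linarith
    · intro g x y
      obtain ⟨w, hw1, ⟨v, hv, hwv⟩, -⟩ := hkey (g • o) (x • o) (y • o)
      have hD0 : 0 ≤ D := by positivity
      have e1 := hle (g • o) w
      have e2 := dist_triangle (g • o) w v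
      rcases hv with (hv | hv) | ⟨v', hv', hv⟩
      · refine ⟨x, hL.left _ _, ?_⟩
        have hv'' : v = x • o := hv
        rw [hv''] at e2 hwv
        linarith
      · refine ⟨y, hright _ _, ?_⟩
        have hv'' : v = y • o := hv
        rw [hv''] at e2 hwv
        linarith
      · obtain ⟨v₂, hv₂, hd⟩ := hcomp (γ (x • o)) (γ (y • o)) x y
          (by rw [dist_comm]; exact hγ _) (by rw [dist_comm]; exact hγ _) v' hv'
        refine ⟨v₂, hv₂, ?_⟩
        have hv'' : v' • o = v := hv
        rw [hv''] at hd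
        have e3 := dist_triangle (g • o) v (v₂ • o)
        linarith
  refine ⟨?_, fun o => ?_⟩
  · obtain ⟨o⟩ := h.nonempty
    obtain ⟨R, hR, -⟩ := main o
    exact ⟨R, hR⟩
  · obtain ⟨R, -, hR⟩ := main o
    exact ⟨R, hR⟩

end Pool.Agent.Y454.CD
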