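import Mathlib
import Pool.Agent.Y454.CD.PartA
import Pool.Agent.Helper852.EZ.J1

set_option autoImplicit false

/-! # Parts A1 and A2: path systems from hyperbolicity -/

namespace Pool.Agent.Y454.CD

open Filter MeasureTheory Pool.Agent.Helper376.LC
open scoped ENNReal NNReal Topology

theorem Hyp.dist_smul_smul {G X : Type} [Group G] [MetricSpace X] [MulAction G X] {o : X}
    {δ R : ℝ} (h : Hyp G X o δ R) (x y : G) :
    dist (x • o) (y • o) = dist o ((x⁻¹ * y) • o) := by
  rw [← h.iso x⁻¹, inv_smul_smul, mul_smul]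

theorem Hyp.near_geod {G X : Type} [Group G] [MetricSpace X] [MulAction G X] {o : X}
    {δ R : ℝ} (h : Hyp G X o δ R) (p : X) (a b : G) {E : ℝ}
    (hp : gprod p (a • o) (b • o) ≤ E) :
    ∃ k : G, gprod (k • o) (a • o) (b • o) ≤ R ∧ dist p (k • o) ≤ E + 2 * δ + R := by
  obtain ⟨γ, h0, h1, hγ⟩ := h.geo (a • o) (b • o)
  set D := dist (a • o) (b • o) with hD
  set t := gprod (a • o) p (b • o) with ht
  have ht0 : 0 ≤ t := gprod_nonneg _ _ _
  have htD : t ≤ D := by
    rw [ht, gprod_comm]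
    exact j7_gprod_le_left _ _ _
  have e1 : dist (a • o) (γ t) = t := by
    have := hγ 0 ⟨le_rfl, ht0.trans htD⟩ t ⟨ht0, htD⟩
    rw [h0, zero_sub, abs_neg, abs_of_nonneg ht0] at this
    exact this
  have e2 : dist (γ t) (b • o) = D - t := by
    have := hγ t ⟨ht0, htD⟩ D ⟨ht0.trans htD, le_rfl⟩
    rw [h1, abs_sub_comm, abs_of_nonneg (by linarith)] at this
    exact this
  have e3 : gprod (a • o) (b • o) (γ t) = t := by
    unfold gprod
    rw [dist_comm (b • o) (a • o), dist_comm (γ t) (a • o), dist_comm (b • o) (γ t), e1, e2]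
    ring
  have e4 := h.hyp (a • o) p (γ t) (b • o)
  rw [e3] at e4
  have e5 : t ≤ min (gprod (a • o) p (b • o)) t := le_min le_rfl le_rfl
  have e6 := dist_eq_gprod (a • o) p (γ t)
  have e7 := gprod_add_gprod (a • o) (b • o) p
  have e8 : gprod p (a • o) (b • o) = dist (a • o) p - t := by
    rw [ht]
    unfold gprod
    rw [dist_comm (a • o) p, dist_comm p (a • o), dist_comm (b • o) p, dist_comm (b • o) (a • o)]
    ring
  obtain ⟨k, hk⟩ := h.cob (γ t)
  refine ⟨k, ?_, ?_⟩
  · unfold gprod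
    have a1 := dist_triangle (a • o) (γ t) (k • o)
    have a2 := dist_triangle (b • o) (γ t) (k • o)
    rw [dist_comm (b • o) (γ t)] at a2
    rw [← hD]
    linarith
  · have a1 := dist_triangle p (γ t) (k • o)
    linarith

theorem stA2 : StA2 := by
  intro G X _ _ _ o δ R h
  have hδ := h.nonneg
  have hR := h.nonneg'
  refine ⟨R, fun C hC => ⟨?_, ?_, ?_, ?_, ?_⟩⟩
  · intro x y
    ext v
    show gprod _ _ _ ≤ C ↔ gprod _ _ _ ≤ C
    rw [gprod_comm]
  · intro x y
    show gprod _ _ _ ≤ C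
    unfold gprod
    rw [dist_self, dist_comm (y • o)]
    linarith
  · intro F hF
    obtain ⟨b, hb, hb'⟩ := exists_bound o hF
    refine ⟨{g | dist o (g • o) ≤ b + 2 * C}, h.fin _, fun x y hxy u hu => ?_⟩
    have h1 := hb' _ hxy
    rw [← h.dist_smul_smul] at h1
    show dist o _ ≤ _
    rw [← h.dist_smul_smul]
    have h2 : gprod (u • o) (x • o) (y • o) ≤ C := hu
    unfold gprod at h2
    have h3 : 0 ≤ dist (y • o) (u • o) := dist_nonneg
    linarith
  · refine ⟨{g | dist o (g • o) ≤ 2 * R + 1}, h.fin _, fun x y => ?_⟩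
    obtain ⟨γ, h0, h1, hγ⟩ := h.geo (x • o) (y • o)
    set D := dist (x • o) (y • o) with hD
    have hD0 : 0 ≤ D := dist_nonneg
    have hk : ∀ t : ℝ, ∃ k : G, dist (γ t) (k • o) ≤ R := fun t => h.cob (γ t)
    choose κ hκ using hk
    have hmem : ∀ t ∈ Set.Icc (0 : ℝ) D, κ t ∈ inter o C x y := by
      intro t ht
      show gprod _ _ _ ≤ C
      have e1 : dist (x • o) (γ t) = t := by
        have := hγ 0 ⟨le_rfl, hD0⟩ t ht
        rw [h0, zero_sub, abs_neg, abs_of_nonneg ht.1] at this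
        exact this
      have e2 : dist (γ t) (y • o) = D - t := by
        have := hγ t ht D ⟨hD0, le_rfl⟩
        rw [h1, abs_sub_comm, abs_of_nonneg (by linarith [ht.2])] at this
        exact this
      unfold gprod
      have a1 := dist_triangle (x • o) (γ t) (κ t • o)
      have a2 := dist_triangle (y • o) (γ t) (κ t • o)
      rw [dist_comm (y • o) (γ t)] at a2
      have a3 := hκ t
      rw [← hD]
      linarith
    have hx : x ∈ inter (G := G) o C x y := by
      show gprod _ _ _ ≤ C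
      unfold gprod
      rw [dist_self, dist_comm (y • o)]
      linarith
    have hy : y ∈ inter (G := G) o C x y := by
      show gprod _ _ _ ≤ C
      unfold gprod
      rw [dist_self]
      linarith
    have hstep : ∀ a b : G, a ∈ inter o C x y → b ∈ inter o C x y →
        dist (a • o) (b • o) ≤ 2 * R + 1 →
        (a ∈ inter o C x y ∧ b ∈ inter o C x y ∧ a⁻¹ * b ∈ {g : G | dist o (g • o) ≤ 2 * R + 1}) := by
      intro a b ha hb hab
      refine ⟨ha, hb, ?_⟩
      show dist o _ ≤ _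
      rw [← h.dist_smul_smul]
      exact hab
    have hreach : ∀ n : ℕ, (n : ℝ) ≤ D → Relation.ReflTransGen
        (fun a b => a ∈ inter o C x y ∧ b ∈ inter o C x y ∧
          a⁻¹ * b ∈ {g : G | dist o (g • o) ≤ 2 * R + 1}) x (κ n) := by
      intro n
      induction n with
      | zero =>
        intro _
        refine Relation.ReflTransGen.single (hstep _ _ hx (hmem _ ⟨by simp, by simpa using hD0⟩) ?_)
        have := hκ ((0 : ℕ) : ℝ)
        rw [Nat.cast_zero, h0] at this
        rw [Nat.cast_zero]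
        linarith
      | succ n ih =>
        intro hn
        push_cast at hn
        have hn0 : (0 : ℝ) ≤ n := Nat.cast_nonneg n
        refine (ih (by linarith)).tail (hstep _ _ (hmem _ ⟨hn0, by linarith⟩)
          (hmem _ ⟨by positivity, by push_cast; linarith⟩) ?_)
        have a1 := hκ (n : ℝ)
        have a2 := hκ ((n + 1 : ℕ) : ℝ)
        have a3 := hγ n ⟨hn0, by linarith⟩ ((n + 1 : ℕ) : ℝ)
          ⟨by positivity, by push_cast; linarith⟩
        have a4 : |(n : ℝ) - ((n + 1 : ℕ) : ℝ)| = 1 := by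
          push_cast
          rw [sub_add_cancel_left, abs_neg, abs_one]
        rw [a4] at a3
        have a5 := dist_triangle4 (κ n • o) (γ n) (γ ((n + 1 : ℕ) : ℝ)) (κ ((n + 1 : ℕ) : ℝ) • o)
        rw [dist_comm] at a1
        linarith
    refine (hreach ⌊D⌋₊ (Nat.floor_le hD0)).tail (hstep _ _
      (hmem _ ⟨Nat.cast_nonneg _, Nat.floor_le hD0⟩) hy ?_)
    have a1 := hκ (⌊D⌋₊ : ℝ)
    have a2 := hγ ⌊D⌋₊ ⟨Nat.cast_nonneg _, Nat.floor_le hD0⟩ D ⟨hD0, le_rfl⟩
    rw [h1, abs_sub_comm, abs_of_nonneg (by linarith [Nat.floor_le hD0])] at a2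
    have a3 := Nat.lt_floor_add_one D
    have a4 := dist_triangle (κ ⌊D⌋₊ • o) (γ ⌊D⌋₊) (y • o)
    rw [dist_comm] at a1
    linarith
  · refine ⟨{g | dist o (g • o) ≤ C + 3 * δ + R}, h.fin _, fun x y z u hu => ?_⟩
    have hu' : gprod (u • o) (x • o) (y • o) ≤ C := hu
    have h1 := h.hyp (u • o) (x • o) (y • o) (z • o)
    have key : ∀ a b : G, gprod (u • o) (a • o) (b • o) ≤ C + δ →
        ∃ v ∈ inter o C a b, u⁻¹ * v ∈ {g : G | dist o (g • o) ≤ C + 3 * δ + R} := by
      intro a b hab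
      obtain ⟨k, hk1, hk2⟩ := h.near_geod (u • o) a b hab
      refine ⟨k, le_trans hk1 hC, ?_⟩
      show dist o _ ≤ _
      rw [← h.dist_smul_smul]
      linarith
    rcases min_choice (gprod (u • o) (x • o) (z • o)) (gprod (u • o) (z • o) (y • o)) with h2 | h2
    · obtain ⟨v, hv, hv2⟩ := key x z (by rw [h2] at h1; linarith)
      exact ⟨v, Or.inl hv, hv2⟩
    · obtain ⟨v, hv, hv2⟩ := key z y (by rw [h2] at h1; linarith)
      exact ⟨v, Or.inr hv, hv2⟩

end Pool.Agent.Y454.CD
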