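import Mathlib
import Pool.Agent.Y454.CD.PartA2

set_option autoImplicit false

/-! # Part A1: path systems from hyperbolicity of the Cayley graph -/

namespace Pool.Agent.Y454.CD

open Filter MeasureTheory Pool.Agent.Helper376.LC
open scoped ENNReal NNReal Topology

theorem stA1 : StA1 := by
  intro G _ ⟨S, hS, hgen, δ', hδ'⟩
  have hconn : (cayley S).Connected := Pool.Agent.Helper852.EZ.J1.cay_conn (S := S) hgen
  have hball : ∀ M : ℕ, {x : G | (cayley S).dist x 1 ≤ M}.Finite := fun M =>
    Pool.Agent.Helper852.EZ.J1.ball_finite (S := S) hS hgen M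
  have hmul : ∀ g x y : G, (cayley S).dist (g * x) (g * y) = (cayley S).dist x y := fun g x y =>
    Pool.Agent.Helper852.EZ.cayley_dist_mul S g x y
  have hball' : ∀ M : ℕ, {g : G | (cayley S).dist 1 g ≤ M}.Finite := by
    intro M
    refine (hball M).subset ?_
    intro g hg
    show (cayley S).dist g 1 ≤ M
    rw [SimpleGraph.dist_comm]
    exact hg
  have hinv : ∀ x y : G, (cayley S).dist 1 (x⁻¹ * y) = (cayley S).dist x y := by
    intro x y
    rw [← hmul x, mul_one, mul_inv_cancel_left]
  obtain ⟨δ, hδ0, hδ⟩ : ∃ δ : ℝ, 0 ≤ δ ∧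
      ∀ o x y z : G, min (wprod S o x z) (wprod S o z y) - δ ≤ wprod S o x y :=
    ⟨max δ' 0, le_max_right _ _, fun o x y z => by
      have := hδ' o x y z
      have := le_max_left δ' 0
      linarith⟩
  have hcomm : ∀ x y : G, (cayley S).dist x y = (cayley S).dist y x := fun x y =>
    SimpleGraph.dist_comm
  have htri : ∀ x y z : G, ((cayley S).dist x z : ℝ) ≤ (cayley S).dist x y + (cayley S).dist y z :=
    fun x y z => by exact_mod_cast hconn.dist_triangle
  refine ⟨fun x y => {v | wprod S v x y ≤ 0}, ?_, ?_, ?_, ?_, ?_⟩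
  · intro x y
    ext v
    show wprod S v x y ≤ 0 ↔ wprod S v y x ≤ 0
    unfold wprod
    rw [hcomm y x, add_comm ((cayley S).dist y v : ℝ)]
  · intro x y
    show wprod S x x y ≤ 0
    unfold wprod
    rw [hcomm y x, SimpleGraph.dist_self]
    simp
  · intro F hF
    set b : ℕ := ∑ g ∈ hF.toFinset, (cayley S).dist 1 g with hb
    refine ⟨_, hball' b, fun x y hxy u hu => ?_⟩
    show (cayley S).dist 1 (x⁻¹ * u) ≤ b
    rw [hinv]
    have h1 : (cayley S).dist 1 (x⁻¹ * y) ≤ b :=
      Finset.single_le_sum (f := fun g => (cayley S).dist 1 g) (fun _ _ => Nat.zero_le _)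
        (hF.mem_toFinset.2 hxy)
    rw [hinv] at h1
    have h2 : wprod S u x y ≤ 0 := hu
    unfold wprod at h2
    have h3 : (0 : ℝ) ≤ (cayley S).dist y u := Nat.cast_nonneg _
    have h4 : ((cayley S).dist x u : ℝ) ≤ (cayley S).dist x y := by linarith
    have h5 : (cayley S).dist x u ≤ (cayley S).dist x y := by exact_mod_cast h4
    exact h5.trans h1
  · refine ⟨_, hball' 1, fun x y => ?_⟩
    obtain ⟨p, hp⟩ := exists_geo (cayley S) hconn x y
    have hmem : ∀ i ≤ (cayley S).dist x y, p i ∈ {v | wprod S v x y ≤ 0} := by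
      intro i hi
      show wprod S (p i) x y ≤ 0
      unfold wprod
      have h1 := (hp.left hi).1
      have h2 := (hp.right hi).1
      rw [hcomm y (p i), h1, h2, Nat.cast_sub hi]
      simp
    have hreach : ∀ i ≤ (cayley S).dist x y, Relation.ReflTransGen
        (fun a b => a ∈ {v | wprod S v x y ≤ 0} ∧ b ∈ {v | wprod S v x y ≤ 0} ∧
          a⁻¹ * b ∈ {g : G | (cayley S).dist 1 g ≤ 1}) x (p i) := by
      intro i
      induction i with
      | zero =>
        intro _
        rw [hp.1]
      | succ i ih =>
        intro hi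
        refine (ih (by omega)).tail ⟨hmem _ (by omega), hmem _ hi, ?_⟩
        show (cayley S).dist 1 ((p i)⁻¹ * p (i + 1)) ≤ 1
        rw [hinv, hp.2.2 i (i + 1) (by omega) hi]
        omega
    have := hreach _ le_rfl
    rw [hp.2.1] at this
    exact this
  · obtain ⟨M, hM⟩ := exists_nat_ge (3 * δ + 1)
    refine ⟨_, hball' M, fun x y z u hu => ?_⟩
    have hu' : wprod S u x y ≤ 0 := hu
    have h1 := hδ u x y z
    have key : ∀ a b : G, wprod S u a b ≤ δ → ∃ v, wprod S v a b ≤ 0 ∧
        (cayley S).dist 1 (u⁻¹ * v) ≤ M := by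
      intro a b hab
      obtain ⟨p, hp⟩ := exists_geo (cayley S) hconn a b
      set t := wprod S a u b with ht
      have ht0 : 0 ≤ t := by
        rw [ht]
        unfold wprod
        have := htri u a b
        rw [hcomm a b] at this
        linarith
      have htb : t ≤ (cayley S).dist a b := by
        rw [ht]
        unfold wprod
        have := htri a b u
        rw [hcomm b u, hcomm a u] at this
        rw [hcomm b a]
        linarith
      set m := ⌊t⌋₊ with hm
      have hmt : (m : ℝ) ≤ t := Nat.floor_le ht0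
      have hmt' : t < m + 1 := Nat.lt_floor_add_one t
      have hmb : m ≤ (cayley S).dist a b := by
        have : (m : ℝ) ≤ (cayley S).dist a b := hmt.trans htb
        exact_mod_cast this
      have e1 := (hp.left hmb).1
      have e2 := (hp.right hmb).1
      refine ⟨p m, ?_, ?_⟩
      · unfold wprod
        rw [hcomm b (p m), e1, e2, Nat.cast_sub hmb]
        simp
      · rw [hinv]
        have h4 := hδ a u (p m) b
        have h5 : wprod S a b (p m) = m := by
          unfold wprod
          rw [hcomm b a, hcomm (p m) a, hcomm b (p m), e1, e2, Nat.cast_sub hmb]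
          ring
        rw [h5] at h4
        have h6 : (m : ℝ) ≤ min (wprod S a u b) m := le_min (by rw [← ht]; exact hmt) le_rfl
        have h7 : ((cayley S).dist u (p m) : ℝ) ≤ (cayley S).dist a u + m - 2 * (m - δ) := by
          have h8 : (m : ℝ) - δ ≤ wprod S a u (p m) := by linarith
          unfold wprod at h8
          rw [hcomm u a, hcomm (p m) a, e1] at h8
          linarith
        have h9 : ((cayley S).dist a u : ℝ) - t ≤ δ := by
          rw [ht]
          unfold wprod at hab ⊢
          rw [hcomm u a, hcomm u b, hcomm b a]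
          linarith
        have h10 : ((cayley S).dist u (p m) : ℝ) ≤ M := by linarith
        exact_mod_cast h10
    rcases min_choice (wprod S u x z) (wprod S u z y) with h2 | h2
    · obtain ⟨v, hv, hv2⟩ := key x z (by rw [h2] at h1; linarith)
      exact ⟨v, Or.inl hv, hv2⟩
    · obtain ⟨v, hv, hv2⟩ := key z y (by rw [h2] at h1; linarith)
      exact ⟨v, Or.inr hv, hv2⟩

end Pool.Agent.Y454.CD
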