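import Mathlib
import Pool.Agent.Y454.CD.PartA1

set_option autoImplicit false

/-! # Part H1: chains and the visual function -/

namespace Pool.Agent.Y454.CD

open Filter MeasureTheory Pool.Agent.Helper376.LC
open scoped ENNReal NNReal Topology

theorem exists_sum_exp_le : ∃ C : ℝ, 0 < C ∧ ∀ (t : ℝ) (m : ℕ),
    ∑ i ∈ Finset.range m, Real.exp (-|(i : ℝ) - t|) ≤ C := by
  have hs : Summable (fun k : ℤ => Real.exp (-|(k : ℝ)|)) := by
    refine Summable.of_nat_of_neg ?_ ?_
    · refine Real.summable_exp_neg_nat.congr fun n => ?_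
      simp
    · refine Real.summable_exp_neg_nat.congr fun n => ?_
      simp
  have hpos : 0 < ∑' k : ℤ, Real.exp (-|(k : ℝ)|) :=
    hs.tsum_pos (fun k => (Real.exp_pos _).le) 0 (Real.exp_pos _)
  refine ⟨Real.exp 1 * ∑' k : ℤ, Real.exp (-|(k : ℝ)|), by positivity, fun t m => ?_⟩
  have h1 : ∀ i ∈ Finset.range m, Real.exp (-|(i : ℝ) - t|) ≤
      Real.exp 1 * Real.exp (-|(((i : ℤ) - ⌊t⌋ : ℤ) : ℝ)|) := by
    intro i _
    rw [← Real.exp_add]
    apply Real.exp_le_exp.2
    have e1 := Int.floor_le t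
    have e2 := Int.lt_floor_add_one t
    have e3 : |(((i : ℤ) - ⌊t⌋ : ℤ) : ℝ)| ≤ |(i : ℝ) - t| + 1 := by
      push_cast
      have e4 : (i : ℝ) - ⌊t⌋ = ((i : ℝ) - t) + (t - ⌊t⌋) := by ring
      rw [e4]
      refine (abs_add_le _ _).trans ?_
      have e5 : |t - ⌊t⌋| ≤ 1 := by
        rw [abs_of_nonneg (by linarith)]
        linarith
      linarith
    linarith
  refine (Finset.sum_le_sum h1).trans ?_
  rw [← Finset.mul_sum]
  refine mul_le_mul_of_nonneg_left ?_ (Real.exp_pos _).le
  have h2 : ∑ i ∈ Finset.range m, Real.exp (-|(((i : ℤ) - ⌊t⌋ : ℤ) : ℝ)|) =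
      ∑ k ∈ (Finset.range m).image (fun i : ℕ => (i : ℤ) - ⌊t⌋), Real.exp (-|(k : ℝ)|) := by
    rw [Finset.sum_image]
    intro i _ j _ hij
    have hij' : (i : ℤ) - ⌊t⌋ = (j : ℤ) - ⌊t⌋ := hij
    omega
  rw [h2]
  exact hs.sum_le_tsum _ fun k _ => (Real.exp_pos _).le

theorem sum_list_le {G : Type} (B : Finset G) (f : G → ℝ) (hf : ∀ t, 0 ≤ f t)
    (hq : ∑ t ∈ B, f t < 1) : ∀ (k : ℕ) (U : Finset (List G)),
    (∀ w ∈ U, w.length ≤ k ∧ ∀ t ∈ w, t ∈ B) →
    ∑ w ∈ U, (w.map f).prod ≤ (1 - ∑ t ∈ B, f t)⁻¹ := by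
  classical
  set q := ∑ t ∈ B, f t with hqdef
  have hq0 : 0 ≤ q := Finset.sum_nonneg fun t _ => hf t
  have hprod : ∀ w : List G, 0 ≤ (w.map f).prod := by
    intro w
    apply List.prod_nonneg
    intro a ha
    obtain ⟨t, _, rfl⟩ := List.mem_map.1 ha
    exact hf t
  have h1q : 0 < 1 - q := by linarith
  have hone : 1 ≤ (1 - q)⁻¹ := by
    rw [one_le_inv₀ h1q]
    linarith
  have hstep : 1 + q * (1 - q)⁻¹ = (1 - q)⁻¹ := by
    field_simp
    ring
  intro k
  induction k with
  | zero =>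
    intro U hU
    have h1 : U ⊆ {[]} := by
      intro w hw
      rw [Finset.mem_singleton]
      exact List.length_eq_zero_iff.1 (Nat.le_zero.1 (hU w hw).1)
    refine (Finset.sum_le_sum_of_subset_of_nonneg h1 fun w _ _ => hprod w).trans ?_
    rw [Finset.sum_singleton]
    simpa using hone
  | succ k ih =>
    intro U hU
    set U' : Finset (List G) := (U.erase []).image List.tail with hU'
    have h1 : U ⊆ {[]} ∪ (B ×ˢ U').image (fun p => p.1 :: p.2) := by
      intro w hw
      rw [Finset.mem_union, Finset.mem_singleton]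
      cases w with
      | nil => exact Or.inl rfl
      | cons t w =>
        right
        rw [Finset.mem_image]
        refine ⟨(t, w), ?_, rfl⟩
        rw [Finset.mem_product]
        refine ⟨(hU _ hw).2 t (List.mem_cons_self), ?_⟩
        rw [hU', Finset.mem_image]
        exact ⟨t :: w, Finset.mem_erase.2 ⟨List.cons_ne_nil _ _, hw⟩, rfl⟩
    refine (Finset.sum_le_sum_of_subset_of_nonneg h1 fun w _ _ => hprod w).trans ?_
    have hdisj : Disjoint ({[]} : Finset (List G))
        ((B ×ˢ U').image (fun p => p.1 :: p.2)) := by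
      rw [Finset.disjoint_singleton_left, Finset.mem_image]
      rintro ⟨p, _, hp⟩
      exact List.cons_ne_nil _ _ hp
    rw [Finset.sum_union hdisj, Finset.sum_singleton, Finset.sum_image, Finset.sum_product]
    · have h2 : ∀ t ∈ B, ∑ w ∈ U', ((t :: w).map f).prod ≤ f t * (1 - q)⁻¹ := by
        intro t _
        simp only [List.map_cons, List.prod_cons]
        rw [← Finset.mul_sum]
        refine mul_le_mul_of_nonneg_left (ih U' ?_) (hf t)
        intro w hw
        rw [hU', Finset.mem_image] at hw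
        obtain ⟨w', hw', rfl⟩ := hw
        rw [Finset.mem_erase] at hw'
        obtain ⟨h3, h4⟩ := hU w' hw'.2
        refine ⟨?_, fun t ht => h4 t (List.mem_of_mem_tail ht)⟩
        rw [List.length_tail]
        omega
      calc ((([] : List G).map f).prod) + ∑ t ∈ B, ∑ w ∈ U', ((t :: w).map f).prod
          ≤ 1 + ∑ t ∈ B, f t * (1 - q)⁻¹ := by
            refine add_le_add (by simp) (Finset.sum_le_sum h2)
        _ = (1 - q)⁻¹ := by rw [← Finset.sum_mul, ← hqdef, hstep]
    · intro p _ p' _ hpp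
      have hpp' : p.1 :: p.2 = p'.1 :: p'.2 := hpp
      rw [List.cons.injEq] at hpp'
      exact Prod.ext hpp'.1 hpp'.2

section chains

variable {G X : Type} [Group G] [MetricSpace X] [MulAction G X] {o : X} {δ R : ℝ}

theorem Hyp.reach (h : Hyp G X o δ R) (x y : G) :
    Relation.ReflTransGen (fun a b : G => dist (a • o) (b • o) ≤ 2 * R + 1) x y := by
  obtain ⟨γ, h0, h1, hγ⟩ := h.geo (x • o) (y • o)
  set D := dist (x • o) (y • o) with hD
  have hD0 : 0 ≤ D := dist_nonneg
  have hk : ∀ t : ℝ, ∃ k : G, dist (γ t) (k • o) ≤ R := fun t => h.cob (γ t)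
  have hR := h.nonneg'
  choose κ hκ using hk
  have hreach : ∀ n : ℕ, (n : ℝ) ≤ D → Relation.ReflTransGen
      (fun a b : G => dist (a • o) (b • o) ≤ 2 * R + 1) x (κ n) := by
    intro n
    induction n with
    | zero =>
      intro _
      refine Relation.ReflTransGen.single ?_
      have := hκ ((0 : ℕ) : ℝ)
      rw [Nat.cast_zero, h0] at this
      rw [Nat.cast_zero]
      linarith
    | succ n ih =>
      intro hn
      push_cast at hn
      have hn0 : (0 : ℝ) ≤ n := Nat.cast_nonneg n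
      refine (ih (by linarith)).tail ?_
      have a1 := hκ (n : ℝ)
      have a2 := hκ ((n + 1 : ℕ) : ℝ)
      have a3 := hγ n ⟨hn0, by linarith⟩ ((n + 1 : ℕ) : ℝ)
        ⟨by positivity, by push_cast; linarith⟩
      have a4 : |(n : ℝ) - ((n + 1 : ℕ) : ℝ)| = 1 := by
        push_cast
        rw [sub_add_cancel_left, abs_neg, abs_one]
      rw [a4] at a3
      have a5 := dist_triangle4 (κ n • o) (γ n) (γ ((n + 1 : ℕ) : ℝ)) (κ ((n + 1 : ℕ) : ℝ) • o)
      rw [dist_comm] at a1
      linarith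
  refine (hreach ⌊D⌋₊ (Nat.floor_le hD0)).tail ?_
  have a1 := hκ (⌊D⌋₊ : ℝ)
  have a2 := hγ ⌊D⌋₊ ⟨Nat.cast_nonneg _, Nat.floor_le hD0⟩ D ⟨hD0, le_rfl⟩
  rw [h1, abs_sub_comm, abs_of_nonneg (by linarith [Nat.floor_le hD0])] at a2
  have a3 := Nat.lt_floor_add_one D
  have a4 := dist_triangle (κ ⌊D⌋₊ • o) (γ ⌊D⌋₊) (y • o)
  rw [dist_comm] at a1
  linarith

/-- The finite set `E` contains a chain from `x` to `y`. -/
def Joins (o : X) (L : ℝ) (x y : G) (E : Finset G) : Prop :=
  x ∈ E ∧ Relation.ReflTransGen (Step o E L) x y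

theorem step_mono {L : ℝ} {E E' : Finset G} (hE : E ⊆ E') {x y : G}
    (h : Relation.ReflTransGen (Step o E L) x y) : Relation.ReflTransGen (Step o E' L) x y := by
  induction h with
  | refl => exact Relation.ReflTransGen.refl
  | tail _ h2 ih => exact ih.tail ⟨hE h2.1, hE h2.2.1, h2.2.2⟩

theorem Joins.right {L : ℝ} {x y : G} {E : Finset G} (h : Joins o L x y E) : y ∈ E := by
  rcases Relation.ReflTransGen.cases_tail h.2 with h1 | ⟨c, _, h1⟩
  · rw [h1]; exact h.1
  · exact h1.2.1

theorem Joins.symm {L : ℝ} {x y : G} {E : Finset G} (h : Joins o L x y E) : Joins o L y x E :=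
  ⟨h.right, reach_symm h.2⟩

theorem Joins.trans [DecidableEq G] {L : ℝ} {x y z : G} {E E' : Finset G}
    (h : Joins o L x y E) (h' : Joins o L y z E') : Joins o L x z (E ∪ E') :=
  ⟨Finset.mem_union_left _ h.1, (step_mono Finset.subset_union_left h.2).trans
    (step_mono Finset.subset_union_right h'.2)⟩

theorem Hyp.joins (h : Hyp G X o δ R) (x y : G) : ∃ E, Joins o (2 * R + 1) x y E := by
  classical
  have h1 := h.reach x y
  induction h1 with
  | refl => exact ⟨{x}, Finset.mem_singleton_self x, Relation.ReflTransGen.refl⟩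
  | @tail b c _ h2 ih =>
    obtain ⟨E, hE⟩ := ih
    have hb := hE.right
    refine ⟨insert c E, Finset.mem_insert_of_mem hE.1,
      (step_mono (Finset.subset_insert _ _) hE.2).tail
      ⟨Finset.mem_insert_of_mem hb, Finset.mem_insert_self _ _, h2⟩⟩

theorem Joins.smul [DecidableEq G] (h : Hyp G X o δ R) {L : ℝ} {x y : G} {E : Finset G}
    (hE : Joins o L x y E) (g : G) : Joins o L (g * x) (g * y) (E.image (fun v => g * v)) := by
  refine ⟨Finset.mem_image_of_mem _ hE.1, ?_⟩
  obtain ⟨_, hE⟩ := hE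
  induction hE with
  | refl => exact Relation.ReflTransGen.refl
  | tail _ h2 ih =>
    refine ih.tail ⟨Finset.mem_image_of_mem _ h2.1, Finset.mem_image_of_mem _ h2.2.1, ?_⟩
    rw [mul_smul, mul_smul, h.iso]
    exact h2.2.2

/-- A set which contains a large ball generates the group. -/
theorem Hyp.closure_eq_top (h : Hyp G X o δ R) {r : ℝ} (hr : 2 * R + 1 ≤ r) :
    Subgroup.closure {g : G | dist o (g • o) ≤ r} = ⊤ := by
  rw [eq_top_iff]
  intro g _
  have h1 := h.reach 1 g
  induction h1 with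
  | refl => exact Subgroup.one_mem _
  | @tail b c _ h2 ih =>
    have h3 : b⁻¹ * c ∈ Subgroup.closure {g : G | dist o (g • o) ≤ r} := by
      apply Subgroup.subset_closure
      show dist o _ ≤ r
      rw [← h.dist_smul_smul]
      linarith
    have h4 := Subgroup.mul_mem _ (ih trivial) h3
    rwa [mul_inv_cancel_left] at h4

end chains

end Pool.Agent.Y454.CD
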