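import Mathlib
import Pool.Agent.Y454.CD.PartH1

set_option autoImplicit false

/-! # Part H2: the visual function -/

namespace Pool.Agent.Y454.CD

open Filter MeasureTheory Pool.Agent.Helper376.LC
open scoped ENNReal NNReal Topology

section

variable {G X : Type} [Group G] [MetricSpace X] [MulAction G X]

/-- The infimum of the masses of the finite sets which join `x` to `y`. -/
noncomputable def dG (o : X) (L : ℝ) (W : G → ℝ) (x y : G) : ℝ :=
  sInf {r | ∃ E, Joins o L x y E ∧ r = ∑ v ∈ E, W v}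

variable {o : X} {δ R : ℝ} {W : G → ℝ}

theorem dG_bdd {L : ℝ} (hW : ∀ g, 0 < W g) (x y : G) :
    BddBelow {r | ∃ E, Joins o L x y E ∧ r = ∑ v ∈ E, W v} := by
  refine ⟨0, ?_⟩
  rintro r ⟨E, _, rfl⟩
  exact Finset.sum_nonneg fun v _ => (hW v).le

theorem dG_le {L : ℝ} (hW : ∀ g, 0 < W g) {x y : G} {E : Finset G} (hE : Joins o L x y E) :
    dG o L W x y ≤ ∑ v ∈ E, W v := csInf_le (dG_bdd hW x y) ⟨E, hE, rfl⟩

theorem le_dG (h : Hyp G X o δ R) {x y : G} {c : ℝ}
    (hc : ∀ E, Joins o (2 * R + 1) x y E → c ≤ ∑ v ∈ E, W v) : c ≤ dG o (2 * R + 1) W x y := by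
  obtain ⟨E, hE⟩ := h.joins x y
  refine le_csInf ⟨_, E, hE, rfl⟩ ?_
  rintro r ⟨E', hE', rfl⟩
  exact hc E' hE'

theorem dG_comm {L : ℝ} (x y : G) : dG o L W x y = dG o L W y x := by
  unfold dG
  congr 1
  ext r
  exact ⟨fun ⟨E, hE, hr⟩ => ⟨E, hE.symm, hr⟩, fun ⟨E, hE, hr⟩ => ⟨E, hE.symm, hr⟩⟩

theorem dG_triangle (h : Hyp G X o δ R) (hW : ∀ g, 0 < W g) (x y z : G) :
    dG o (2 * R + 1) W x z ≤ dG o (2 * R + 1) W x y + dG o (2 * R + 1) W y z := by
  classical
  have h1 : ∀ E, Joins o (2 * R + 1) x y E → ∀ E', Joins o (2 * R + 1) y z E' →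
      dG o (2 * R + 1) W x z ≤ ∑ v ∈ E, W v + ∑ v ∈ E', W v := by
    intro E hE E' hE'
    refine (dG_le hW (hE.trans hE')).trans ?_
    rw [← Finset.sum_union_inter]
    have : 0 ≤ ∑ v ∈ E ∩ E', W v := Finset.sum_nonneg fun v _ => (hW v).le
    linarith
  have h2 : ∀ E, Joins o (2 * R + 1) x y E →
      dG o (2 * R + 1) W x z - ∑ v ∈ E, W v ≤ dG o (2 * R + 1) W y z := by
    intro E hE
    refine le_dG h fun E' hE' => ?_
    have := h1 E hE E' hE'
    linarith
  have h3 : dG o (2 * R + 1) W x z - dG o (2 * R + 1) W y z ≤ dG o (2 * R + 1) W x y := by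
    refine le_dG h fun E hE => ?_
    have := h2 E hE
    linarith
  linarith

theorem exists_D {X₁ : Type} [MetricSpace X₁] [MulAction G X₁] {o₁ : X₁} {δ₁ R₂ : ℝ}
    (h : Hyp G X o δ R) (h₁ : Hyp G X₁ o₁ δ₁ R₂) (c₀ : ℝ) (hc₀ : 0 < c₀)
    (hlow : ∀ (x y : G) (E : Finset G), x ∈ E →
      Relation.ReflTransGen (Step o E (2 * R + 1)) x y →
      c₀ * Real.exp (-gprod o₁ (x • o₁) (y • o₁)) ≤ ∑ v ∈ E, Real.exp (-dist o₁ (v • o₁))) :
    ∃ (D : X₁ → X₁ → ℝ) (c C : ℝ), 0 < c ∧ (∀ x y, D x y = D y x) ∧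
      (∀ x y z, D x z ≤ D x y + D y z) ∧
      ∀ x y, c * Real.exp (-1 * gprod o₁ x y) ≤ D x y ∧
        D x y ≤ C * Real.exp (-1 * gprod o₁ x y) := by
  classical
  set W : G → ℝ := fun v => Real.exp (-dist o₁ (v • o₁)) with hWdef
  have hW : ∀ g, 0 < W g := fun g => Real.exp_pos _
  have hR2 := h₁.nonneg'
  -- the upper bound for close points
  obtain ⟨M, hM0, hM⟩ : ∃ M : ℝ, 0 ≤ M ∧ ∀ a b : G, dist (a • o₁) (b • o₁) ≤ 2 * R₂ + 1 →
      dG o (2 * R + 1) W a b ≤ M * W a := by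
    choose E hE using fun f : G => h.joins 1 f
    refine ⟨∑ f ∈ (h₁.fin (2 * R₂ + 1)).toFinset, ∑ v ∈ E f, Real.exp (dist o₁ (v • o₁)),
      Finset.sum_nonneg fun f _ => Finset.sum_nonneg fun v _ => (Real.exp_pos _).le, ?_⟩
    intro a b hab
    have h1 : a⁻¹ * b ∈ (h₁.fin (2 * R₂ + 1)).toFinset := by
      rw [Set.Finite.mem_toFinset]
      show dist o₁ _ ≤ _
      rw [← h₁.dist_smul_smul]
      exact hab
    have h2 := (hE (a⁻¹ * b)).smul h a
    rw [mul_one, mul_inv_cancel_left] at h2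
    refine (dG_le hW h2).trans ?_
    rw [Finset.sum_image (fun _ _ _ _ h => mul_left_cancel h), Finset.sum_mul]
    calc ∑ v ∈ E (a⁻¹ * b), W (a * v)
        ≤ (∑ v ∈ E (a⁻¹ * b), Real.exp (dist o₁ (v • o₁))) * W a := by
          rw [Finset.sum_mul]
          refine Finset.sum_le_sum fun v _ => ?_
          rw [hWdef]
          show Real.exp _ ≤ Real.exp _ * Real.exp _
          rw [← Real.exp_add]
          apply Real.exp_le_exp.2
          have e1 := dist_triangle_right o₁ (a • o₁) ((a * v) • o₁)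
          rw [h₁.dist_mul a v] at e1
          linarith
      _ ≤ _ := Finset.single_le_sum
          (f := fun f => (∑ v ∈ E f, Real.exp (dist o₁ (v • o₁))) * W a)
          (fun f _ => mul_nonneg (Finset.sum_nonneg fun v _ => (Real.exp_pos _).le) (hW a).le) h1
  obtain ⟨S, hS0, hS⟩ := exists_sum_exp_le
  -- the upper bound
  have hup : ∀ x y : G, dG o (2 * R + 1) W x y ≤
      (M * (1 + Real.exp R₂ * S)) * Real.exp (-gprod o₁ (x • o₁) (y • o₁)) := by
    intro x y
    obtain ⟨γ, h0, hT, hγ⟩ := h₁.geo (x • o₁) (y • o₁)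
    set T := dist (x • o₁) (y • o₁) with hTdef
    have hT0 : 0 ≤ T := dist_nonneg
    have hk : ∀ t : ℝ, ∃ k : G, dist (γ t) (k • o₁) ≤ R₂ := fun t => h₁.cob (γ t)
    choose κ hκ using hk
    set P := gprod o₁ (x • o₁) (y • o₁) with hP
    set t₀ := gprod (x • o₁) o₁ (y • o₁) with ht₀
    have hdist : ∀ t ∈ Set.Icc (0 : ℝ) T, P + |t - t₀| ≤ dist o₁ (γ t) := by
      intro t ht
      have e1 : dist (x • o₁) (γ t) = t := by
        have := hγ 0 ⟨le_rfl, hT0⟩ t ht
        rw [h0, zero_sub, abs_neg, abs_of_nonneg ht.1] at this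
        exact this
      have e2 : dist (γ t) (y • o₁) = T - t := by
        have := hγ t ht T ⟨hT0, le_rfl⟩
        rw [hT, abs_sub_comm, abs_of_nonneg (by linarith [ht.2])] at this
        exact this
      have e3 := dist_triangle (x • o₁) (γ t) o₁
      have e4 := dist_triangle_left (y • o₁) o₁ (γ t)
      rw [dist_comm (γ t) o₁] at e3 e4
      rw [dist_comm (γ t) (y • o₁)] at e2
      have e5 := dist_triangle (y • o₁) (γ t) o₁
      rw [dist_comm (γ t) o₁] at e5
      have e6 : P + t₀ = dist (x • o₁) o₁ := by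
        rw [hP, ht₀]
        unfold gprod
        rw [dist_comm o₁ (x • o₁), dist_comm (y • o₁) (x • o₁), dist_comm o₁ (y • o₁)]
        ring
      have e7 : P + (T - t₀) = dist (y • o₁) o₁ := by
        rw [hP, ht₀]
        unfold gprod
        rw [dist_comm o₁ (x • o₁), dist_comm (y • o₁) (x • o₁), dist_comm o₁ (y • o₁), ← hTdef]
        ring
      rw [← le_sub_iff_add_le', abs_le]
      constructor <;> linarith
    have hPx : P ≤ dist o₁ (x • o₁) := j7_gprod_le_left _ _ _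
    have hstep : ∀ m : ℕ, (m : ℝ) ≤ T → dG o (2 * R + 1) W x (κ m) ≤
        M * W x + ∑ i ∈ Finset.range m, M * W (κ i) := by
      intro m
      induction m with
      | zero =>
        intro _
        rw [Finset.range_zero, Finset.sum_empty, add_zero]
        apply hM
        have := hκ ((0 : ℕ) : ℝ)
        rw [Nat.cast_zero, h0] at this
        rw [Nat.cast_zero]
        linarith
      | succ m ih =>
        intro hm
        push_cast at hm
        have hm0 : (0 : ℝ) ≤ m := Nat.cast_nonneg m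
        refine (dG_triangle h hW x (κ m) _).trans ?_
        rw [Finset.sum_range_succ, ← add_assoc]
        refine add_le_add (ih (by linarith)) (hM _ _ ?_)
        have a1 := hκ (m : ℝ)
        have a2 := hκ ((m + 1 : ℕ) : ℝ)
        have a3 := hγ m ⟨hm0, by linarith⟩ ((m + 1 : ℕ) : ℝ)
          ⟨by positivity, by push_cast; linarith⟩
        have a4 : |(m : ℝ) - ((m + 1 : ℕ) : ℝ)| = 1 := by
          push_cast
          rw [sub_add_cancel_left, abs_neg, abs_one]
        rw [a4] at a3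
        have a5 := dist_triangle4 (κ m • o₁) (γ m) (γ ((m + 1 : ℕ) : ℝ))
          (κ ((m + 1 : ℕ) : ℝ) • o₁)
        rw [dist_comm] at a1
        linarith
    have hend : dG o (2 * R + 1) W (κ ⌊T⌋₊) y ≤ M * W (κ ⌊T⌋₊) := by
      apply hM
      have a1 := hκ (⌊T⌋₊ : ℝ)
      have a2 := hγ ⌊T⌋₊ ⟨Nat.cast_nonneg _, Nat.floor_le hT0⟩ T ⟨hT0, le_rfl⟩
      rw [hT, abs_sub_comm, abs_of_nonneg (by linarith [Nat.floor_le hT0])] at a2
      have a3 := Nat.lt_floor_add_one T
      have a4 := dist_triangle (κ ⌊T⌋₊ • o₁) (γ ⌊T⌋₊) (y • o₁)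
      rw [dist_comm] at a1
      linarith
    have h1 : dG o (2 * R + 1) W x y ≤
        M * W x + ∑ i ∈ Finset.range (⌊T⌋₊ + 1), M * W (κ i) := by
      refine (dG_triangle h hW x (κ ⌊T⌋₊) y).trans ?_
      rw [Finset.sum_range_succ, ← add_assoc]
      exact add_le_add (hstep _ (Nat.floor_le hT0)) hend
    refine h1.trans ?_
    have h2 : W x ≤ Real.exp (-P) := Real.exp_le_exp.2 (by linarith)
    have h3 : ∀ i ∈ Finset.range (⌊T⌋₊ + 1),
        W (κ i) ≤ Real.exp R₂ * Real.exp (-P) * Real.exp (-|(i : ℝ) - t₀|) := by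
      intro i hi
      have hi' : (i : ℝ) ≤ T := by
        have : i ≤ ⌊T⌋₊ := by
          have := Finset.mem_range.1 hi
          omega
        exact (Nat.cast_le.2 this).trans (Nat.floor_le hT0)
      have e1 := hdist i ⟨Nat.cast_nonneg _, hi'⟩
      have e2 := hκ (i : ℝ)
      have e3 := dist_triangle_right o₁ (γ i) (κ i • o₁)
      rw [hWdef, ← Real.exp_add, ← Real.exp_add]
      apply Real.exp_le_exp.2
      linarith
    calc M * W x + ∑ i ∈ Finset.range (⌊T⌋₊ + 1), M * W (κ i)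
        ≤ M * Real.exp (-P) + ∑ i ∈ Finset.range (⌊T⌋₊ + 1),
            M * (Real.exp R₂ * Real.exp (-P) * Real.exp (-|(i : ℝ) - t₀|)) := by
          refine add_le_add (mul_le_mul_of_nonneg_left h2 hM0) (Finset.sum_le_sum fun i hi => ?_)
          exact mul_le_mul_of_nonneg_left (h3 i hi) hM0
      _ = M * Real.exp (-P) + M * (Real.exp R₂ * Real.exp (-P) *
            ∑ i ∈ Finset.range (⌊T⌋₊ + 1), Real.exp (-|(i : ℝ) - t₀|)) := by
          rw [Finset.mul_sum, Finset.mul_sum]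
      _ ≤ M * Real.exp (-P) + M * (Real.exp R₂ * Real.exp (-P) * S) := by
          have := hS t₀ (⌊T⌋₊ + 1)
          gcongr
      _ = _ := by ring
  -- pull back to `X₁`
  choose ν hν using h₁.cob
  have hcomp : ∀ x y : X₁, |gprod o₁ x y - gprod o₁ (ν x • o₁) (ν y • o₁)| ≤ 2 * R₂ := by
    intro x y
    have e1 := j7_gprod_sub_le o₁ x (ν x • o₁) y
    have e2 := j7_gprod_sub_le_right o₁ (ν x • o₁) y (ν y • o₁)
    have e3 := j7_gprod_sub_le o₁ (ν x • o₁) x y
    have e4 := j7_gprod_sub_le_right o₁ (ν x • o₁) (ν y • o₁) y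
    have e5 := hν x
    have e6 := hν y
    rw [dist_comm (ν x • o₁) x] at e3
    rw [dist_comm (ν y • o₁) y] at e4
    rw [abs_le]
    constructor <;> linarith
  refine ⟨fun x y => dG o (2 * R + 1) W (ν x) (ν y), c₀ * Real.exp (-(2 * R₂)),
    (M * (1 + Real.exp R₂ * S)) * Real.exp (2 * R₂), by positivity, fun x y => dG_comm _ _,
    fun x y z => dG_triangle h hW _ _ _, fun x y => ⟨?_, ?_⟩⟩
  · refine le_trans ?_ (le_dG h fun E hE => hlow (ν x) (ν y) E hE.1 hE.2)
    rw [mul_assoc, ← Real.exp_add]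
    refine mul_le_mul_of_nonneg_left (Real.exp_le_exp.2 ?_) hc₀.le
    have := abs_le.1 (hcomp x y)
    linarith
  · refine (hup (ν x) (ν y)).trans ?_
    rw [mul_assoc (M * (1 + Real.exp R₂ * S)), ← Real.exp_add]
    refine mul_le_mul_of_nonneg_left (Real.exp_le_exp.2 ?_) (by positivity)
    have := abs_le.1 (hcomp x y)
    linarith

end

end Pool.Agent.Y454.CD
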