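import Mathlib
import Pool.Agent.Y454.CD.PartH2
import Pool.Agent.Y454.CD.PartG
import Pool.Agent.Y454.CD.PartE
import Pool.Agent.Y454.CD.PartF
import Pool.Agent.Y454.CD.PartD
import Pool.Agent.Y166.CD.PartB

set_option autoImplicit false

/-! # Part H3: the assembly -/

namespace Pool.Agent.Y454.CD

open Filter MeasureTheory Pool.Agent.Helper376.LC
open scoped ENNReal NNReal Topology

theorem max_rpow_le {a b p : ℝ} (ha : 0 ≤ a) (hb : 0 ≤ b) :
    (max a b) ^ p ≤ a ^ p + b ^ p := by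
  have h1 := Real.rpow_nonneg ha p
  have h2 := Real.rpow_nonneg hb p
  rcases max_choice a b with h | h <;> rw [h] <;> linarith

theorem exists_weight {G : Type} [Group G] (A : Set G) (B : Finset G)
    (hB : ∀ t ∈ B, t⁻¹ ∈ B) (ρ : G → ℝ) (hρ : ∀ t, 0 ≤ ρ t) {p : ℝ} (hp : 0 < p)
    (hsum : ∀ F : Finset G, (∀ t ∈ F, t ∈ A) → ∑ t ∈ F, ρ t ^ p ≤ 1 / 4) :
    ∃ (ρ' : G → ℝ) (κ : ℝ), 0 < κ ∧ (∀ t, κ ≤ ρ' t) ∧ (∀ t ∈ A, ρ t ≤ ρ' t) ∧
      (∀ t, ρ' t⁻¹ = ρ' t) ∧ ∑ t ∈ B, ρ' t ^ p < 1 := by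
  classical
  set ρ₀ : G → ℝ := fun t => if t ∈ A then ρ t else 0 with hρ₀
  have hρ₀n : ∀ t, 0 ≤ ρ₀ t := by
    intro t
    rw [hρ₀]
    dsimp only
    split_ifs
    · exact hρ t
    · exact le_rfl
  have hb : (0 : ℝ) < 4 * (B.card + 1) := by positivity
  set κ : ℝ := (1 / (4 * (B.card + 1)) : ℝ) ^ (1 / p) with hκ
  have hκ0 : 0 < κ := by positivity
  have hκp : κ ^ p = 1 / (4 * (B.card + 1)) := by
    rw [hκ, ← Real.rpow_mul (by positivity), one_div_mul_cancel hp.ne', Real.rpow_one]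
  refine ⟨fun t => max (max (ρ₀ t) (ρ₀ t⁻¹)) κ, κ, hκ0, fun t => le_max_right _ _, ?_, ?_, ?_⟩
  · intro t ht
    refine le_max_of_le_left (le_max_of_le_left ?_)
    rw [hρ₀]
    dsimp only
    rw [if_pos ht]
  · intro t
    dsimp only
    rw [inv_inv, max_comm (ρ₀ t⁻¹)]
  · have h1 : ∑ t ∈ B, ρ₀ t ^ p ≤ 1 / 4 := by
      have h2 : ∑ t ∈ B, ρ₀ t ^ p = ∑ t ∈ B.filter (fun t => t ∈ A), ρ t ^ p := by
        rw [Finset.sum_filter]
        refine Finset.sum_congr rfl fun t _ => ?_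
        rw [hρ₀]
        dsimp only
        split_ifs
        · rfl
        · exact Real.zero_rpow hp.ne'
      rw [h2]
      exact hsum _ fun t ht => (Finset.mem_filter.1 ht).2
    have h3 : ∑ t ∈ B, ρ₀ t⁻¹ ^ p = ∑ t ∈ B, ρ₀ t ^ p := by
      refine Finset.sum_nbij' (fun t => t⁻¹) (fun t => t⁻¹) hB hB (fun t _ => inv_inv t)
        (fun t _ => inv_inv t) (fun t _ => rfl)
    have h4 : ∀ t ∈ B, (max (max (ρ₀ t) (ρ₀ t⁻¹)) κ) ^ p ≤
        ρ₀ t ^ p + ρ₀ t⁻¹ ^ p + 1 / (4 * (B.card + 1)) := by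
      intro t _
      rw [← hκp]
      refine (max_rpow_le (le_max_of_le_left (hρ₀n t)) hκ0.le).trans ?_
      have := max_rpow_le (p := p) (hρ₀n t) (hρ₀n t⁻¹)
      linarith
    refine (Finset.sum_le_sum h4).trans_lt ?_
    rw [Finset.sum_add_distrib, Finset.sum_add_distrib, h3, Finset.sum_const, nsmul_eq_mul]
    have h5 : (B.card : ℝ) * (1 / (4 * (B.card + 1))) ≤ 1 / 4 := by
      rw [mul_one_div, div_le_iff₀ hb]
      linarith
    linarith

theorem visualDim_le_of_lt {G : Type} [Group G] (hG : HyperbolicGroup G) {Y : Type}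
    [MetricSpace Y] (hY : AhlforsRegular Y)
    (hQ : ∃ (Z : Type) (_ : MetricSpace Z), VisualBoundary G Z ∧ QuasisymmetricEquiv Y Z)
    (p : ℝ≥0) (hp : dimH (Set.univ : Set Y) < p) : visualDim G ≤ p := by
  classical
  obtain ⟨Z, _, ⟨X, _, _, e, hGX, hvis⟩, hYZ⟩ := hQ
  obtain ⟨L₀, hL₀⟩ := stA1 G hG
  obtain ⟨hX, -⟩ := stA G X L₀ hGX hL₀
  have hp0 : 0 < p := by
    have := bot_le.trans_lt hp
    rw [ENNReal.bot_eq_zero] at this
    exact_mod_cast this
  rcases finite_or_infinite (Boundary X) with hfin | hinf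
  · have hZ : Finite Z := Finite.of_equiv _ e.symm
    have h1 : dimH (Set.univ : Set Z) = 0 := Set.Finite.dimH_zero Set.finite_univ
    have h2 : visualDim G ≤ dimH (Set.univ : Set Z) :=
      sInf_le ⟨Z, inferInstance, ⟨X, inferInstance, inferInstance, e, hGX, hvis⟩, rfl⟩
    rw [h1] at h2
    exact h2.trans bot_le
  haveI := hGX.proper
  obtain ⟨o⟩ := hGX.nonempty
  obtain ⟨δ, R, h⟩ := exists_hyp hGX hX o
  have hR := h.nonneg'
  have hδ := h.nonneg
  obtain ⟨C₀, hC₀⟩ := stA2 G X o δ R h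
  set C₁ := max C₀ (2 * R + δ) with hC₁
  obtain ⟨C₂, C₃, K, N, hN⟩ := stG G X o δ R h (2 * R + 1) C₁ (by linarith) (le_max_right _ _)
  obtain ⟨N', hN'⟩ := stE G X Y Z e o δ R h hinf hvis hY hYZ p hp C₂ C₃ K (1 / 4) (by norm_num)
  set n := max (max N N') 0 with hn
  have hn0 : 0 ≤ n := le_max_right _ _
  obtain ⟨ρ, hρ, hcross, hsum⟩ := hN' n ((le_max_right _ _).trans (le_max_left _ _))
  have hmain := hN n ((le_max_left _ _).trans (le_max_left _ _)) ρ hρ hcross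
  -- the generating set
  set B : Finset G := (h.fin (n + (2 * R + 1))).toFinset with hB
  have hBmem : ∀ t : G, t ∈ B ↔ dist o (t • o) ≤ n + (2 * R + 1) := by
    intro t
    rw [hB, Set.Finite.mem_toFinset]
    rfl
  have hinv : ∀ t : G, dist o (t⁻¹ • o) = dist o (t • o) := by
    intro t
    rw [← h.iso t, smul_inv_smul, dist_comm]
  obtain ⟨ρ', κ, hκ, hκρ, hρρ, hρinv, hρsum⟩ := exists_weight {s : G | |dist o (s • o) - n| ≤ R} B
    (fun t ht => by
      rw [hBmem] at ht ⊢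
      rw [hinv]
      exact ht) ρ hρ (p := (p : ℝ)) (by exact_mod_cast hp0) (fun F hF => hsum F hF)
  have hρpos : ∀ t, 0 < ρ' t := fun t => hκ.trans_le (hκρ t)
  have hρlt : ∀ t ∈ B, ρ' t < 1 := by
    intro t ht
    have h1 : ρ' t ^ (p : ℝ) < 1 :=
      (Finset.single_le_sum (f := fun t => ρ' t ^ (p : ℝ))
        (fun t _ => Real.rpow_nonneg (hρpos t).le _) ht).trans_lt hρsum
    by_contra hcon
    push Not at hcon
    exact absurd (Real.one_le_rpow hcon (by positivity)) (not_le.2 h1)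
  -- the new space
  obtain ⟨X₁, _, _, o₁, hGX₁, hedge, hword⟩ := Pool.Agent.Y166.CD.stB G (B : Set G)
    (fun t => -Real.log (ρ' t)) B.finite_toSet (by
      have h1 := h.closure_eq_top (r := n + (2 * R + 1)) (by linarith)
      have h2 : (B : Set G) = {g : G | dist o (g • o) ≤ n + (2 * R + 1)} := by
        ext t
        exact hBmem t
      rw [h2]
      exact h1)
    (fun t ht => by
      have ht' : t ∈ B := ht
      show t⁻¹ ∈ B
      rw [hBmem] at ht' ⊢
      rw [hinv]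
      exact ht')
    (fun t ht => neg_pos.2 (Real.log_neg (hρpos t) (hρlt t ht)))
    (fun t ht => by rw [hρinv])
  have hpath : PathSystem G (inter (G := G) o C₁) := hC₀ C₁ (le_max_left _ _)
  obtain ⟨hX₁, hR₁⟩ := stA G X₁ _ hGX₁ hpath
  obtain ⟨R₁, -, hR₁⟩ := hR₁ o₁
  obtain ⟨δ₁, R₂, h₁⟩ := exists_hyp hGX₁ hX₁ o₁
  haveI := hGX₁.proper
  have hW : ∀ g t : G, t ∈ B →
      ρ' t * Real.exp (-dist o₁ (g • o₁)) ≤ Real.exp (-dist o₁ ((g * t) • o₁)) := by
    intro g t ht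
    have h1 := hedge t ht
    have h2 : ρ' t = Real.exp (Real.log (ρ' t)) := (Real.exp_log (hρpos t)).symm
    rw [h2, ← Real.exp_add]
    apply Real.exp_le_exp.2
    have h3 := dist_triangle o₁ (g • o₁) ((g * t) • o₁)
    rw [h₁.dist_mul] at h3
    linarith
  have hlow : ∀ (x y : G) (E : Finset G), x ∈ E →
      Relation.ReflTransGen (Step o E (2 * R + 1)) x y →
      (κ * Real.exp (-R₁)) * Real.exp (-gprod o₁ (x • o₁) (y • o₁)) ≤
        ∑ v ∈ E, Real.exp (-dist o₁ (v • o₁)) := by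
    intro x y E hx hxy
    obtain ⟨v, hv, hvd⟩ := hR₁ 1 x y
    rw [one_smul] at hvd
    have h1 := hmain (fun g => Real.exp (-dist o₁ (g • o₁))) κ hκ (fun g => Real.exp_pos _)
      (fun g s hs => (mul_le_mul_of_nonneg_right (hρρ s hs) (Real.exp_pos _).le).trans
        (hW g s (by
          rw [hBmem]
          have := abs_le.1 hs
          linarith)))
      (fun g a ha => (mul_le_mul_of_nonneg_right (hκρ a) (Real.exp_pos _).le).trans
        (hW g a ((hBmem a).2 ha))) E v x y hx hxy hv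
    refine le_trans ?_ h1
    rw [mul_assoc, ← Real.exp_add]
    refine mul_le_mul_of_nonneg_left (Real.exp_le_exp.2 ?_) hκ.le
    linarith
  obtain ⟨D, c, C, hc, hDs, hDt, hDb⟩ := exists_D h h₁ (κ * Real.exp (-R₁)) (by positivity) hlow
  obtain ⟨Z₁, _, e₁, hvis₁⟩ := stD X₁ o₁ D 1 c C hX₁ one_pos hc hDs hDt hDb
  have hsummable : Summable (fun g : G => Real.exp (-(p * 1) * dist o₁ (g • o₁))) := by
    choose w hwB hwprod hwsum using hword
    refine summable_of_sum_le (c := (1 - ∑ t ∈ B, ρ' t ^ (p : ℝ))⁻¹)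
      (fun g => (Real.exp_pos _).le) ?_
    intro u
    have hinj : Set.InjOn w u := by
      intro a _ b _ hab
      rw [← hwprod a, ← hwprod b, hab]
    have h1 := sum_list_le B (fun t => ρ' t ^ (p : ℝ))
      (fun t => Real.rpow_nonneg (hρpos t).le _) hρsum (∑ g ∈ u, (w g).length) (u.image w) (by
        intro l hl
        obtain ⟨g, hg, rfl⟩ := Finset.mem_image.1 hl
        exact ⟨Finset.single_le_sum (f := fun g => (w g).length) (fun _ _ => Nat.zero_le _) hg,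
          fun t ht => hwB g t ht⟩)
    rw [Finset.sum_image hinj] at h1
    refine le_trans (Finset.sum_le_sum fun g _ => ?_) h1
    have h2 : ∀ l : List G, (l.map (fun t => ρ' t ^ (p : ℝ))).prod =
        Real.exp (-(p * (l.map (fun t => -Real.log (ρ' t))).sum)) := by
      intro l
      induction l with
      | nil => simp
      | cons t l ih =>
        rw [List.map_cons, List.prod_cons, ih, List.map_cons, List.sum_cons,
          Real.rpow_def_of_pos (hρpos t), ← Real.exp_add]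
        congr 1
        ring
    rw [h2]
    apply Real.exp_le_exp.2
    have h3 := hwsum g
    have h4 : (0 : ℝ) ≤ p := p.coe_nonneg
    nlinarith
  have hdim := stF G X₁ Z₁ e₁ o₁ δ₁ R₂ 1 h₁ hvis₁ p hp0 hsummable
  have h2 : visualDim G ≤ dimH (Set.univ : Set Z₁) :=
    sInf_le ⟨Z₁, inferInstance, ⟨X₁, inferInstance, inferInstance, e₁, hGX₁, ⟨o₁, 1, hvis₁⟩⟩, rfl⟩
  exact h2.trans hdim

theorem stMain_of (hC : StC) : StMain := by
  intro G _ hG
  apply le_antisymm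
  · refine sInf_le_sInf ?_
    rintro D ⟨Z, _, ⟨X, _, _, e, hGX, hvis⟩, rfl⟩
    obtain ⟨L₀, hL₀⟩ := stA1 G hG
    obtain ⟨hX, -⟩ := stA G X L₀ hGX hL₀
    refine ⟨Z, inferInstance, hC G X Z e hGX hX hvis, ⟨Z, inferInstance,
      ⟨X, inferInstance, inferInstance, e, hGX, hvis⟩, Homeomorph.refl Z, Homeomorph.refl _, ?_⟩,
      rfl⟩
    intro x a b t h
    exact h
  · refine le_sInf ?_
    rintro D ⟨Y, _, hY, hQ, rfl⟩
    refine le_of_forall_gt_imp_ge_of_dense fun a ha => ?_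
    obtain ⟨p, hp1, hp2⟩ := ENNReal.lt_iff_exists_nnreal_btwn.1 ha
    exact (visualDim_le_of_lt hG hY hQ p hp1).trans hp2.le

end Pool.Agent.Y454.CD
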